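import Mathlib

/-!
# AND-systems have `o(n²)` triples

An AND-system on a finite set `V` is a set `T` of triples `(s, x, y)` such that every `t ∈ T` has a
Boolean assignment `ψ` with `ψ s = 1`, `ψ x = ψ y = 0` and with `ψ s' = ψ x' ∧ ψ y'` for all other
triples. We prove with the triangle removal lemma that `|T| = o(|V|²)`.
-/

set_option autoImplicit false

namespace Pool.Agent.R556.AndSys

open Finset SimpleGraph

variable {V : Type} [Fintype V] [DecidableEq V]

/-- `T` is an AND-system. -/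
def IsAndSys (T : Finset (V × V × V)) : Prop :=
  ∀ t ∈ T, ∃ ψ : V → Bool, ψ t.1 = true ∧ ψ t.2.1 = false ∧ ψ t.2.2 = false ∧
    ∀ t' ∈ T, t' ≠ t → ψ t'.1 = (ψ t'.2.1 && ψ t'.2.2)

omit [Fintype V] [DecidableEq V] in
theorem sx_inj {T : Finset (V × V × V)} (h : IsAndSys T) {s x y y' : V} (h1 : (s, x, y) ∈ T)
    (h2 : (s, x, y') ∈ T) : y = y' := by
  by_contra hne
  obtain ⟨ψ, a1, a2, a3, a4⟩ := h _ h1
  have := a4 _ h2 (by intro e; apply hne; simpa using (congrArg (fun z => z.2.2) e).symm)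
  simp_all

omit [Fintype V] [DecidableEq V] in
theorem sy_inj {T : Finset (V × V × V)} (h : IsAndSys T) {s x x' y : V} (h1 : (s, x, y) ∈ T)
    (h2 : (s, x', y) ∈ T) : x = x' := by
  by_contra hne
  obtain ⟨ψ, a1, a2, a3, a4⟩ := h _ h1
  have := a4 _ h2 (by intro e; apply hne; simpa using (congrArg (fun z => z.2.1) e).symm)
  simp_all

/-- The set of pairs `(x, y)` of colour `t` both of whose vertices are covered by colour `s`. -/
def E (T : Finset (V × V × V)) (s t : V) : Finset (V × V) :=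
  univ.filter fun p => (t, p.1, p.2) ∈ T ∧ (∃ y', (s, p.1, y') ∈ T) ∧ ∃ x', (s, x', p.2) ∈ T

theorem card_E_le {T : Finset (V × V × V)} (h : IsAndSys T) {s t : V} (hst : s ≠ t) :
    (E T s t).card ≤ 2 := by
  by_contra hc
  push Not at hc
  obtain ⟨e, e1, e2, he, he1, he2, n1, n2, n3⟩ := Finset.two_lt_card_iff.1 hc
  simp only [E, mem_filter, mem_univ, true_and] at he he1 he2
  obtain ⟨y', hy'⟩ := he.2.1
  obtain ⟨ψ, a1, a2, a3, a4⟩ := h _ hy'
  simp only at a1 a2 a3
  -- colour `t` clauses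
  have key : ∀ f : V × V, (t, f.1, f.2) ∈ T → (∃ y', (s, f.1, y') ∈ T) →
      (∃ x', (s, x', f.2) ∈ T) → f.1 ≠ e.1 → f.2 ≠ y' → False := by
    intro f hf hfx hfy hne1 hne2
    obtain ⟨y1, hy1⟩ := hfx
    obtain ⟨x1, hx1⟩ := hfy
    have b1 := a4 _ hy1 (by
      intro e'; apply hne1; simpa using (congrArg (fun z => z.2.1) e'))
    have b2 := a4 _ hx1 (by
      intro e'; apply hne2; simpa using (congrArg (fun z => z.2.2) e'))
    have b3 := a4 _ hf (by
      intro e'; apply hst; simpa using (congrArg (fun z => z.1) e').symm)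
    have b4 := a4 _ he.1 (by
      intro e'; apply hst; simpa using (congrArg (fun z => z.1) e').symm)
    simp only at b1 b2 b3 b4
    rw [a1] at b1 b2
    rw [a2] at b4
    simp only [Bool.false_and] at b4
    rw [b4] at b3
    have c1 : ψ f.1 = true := (Bool.and_eq_true_iff.1 b1.symm).1
    have c2 : ψ f.2 = true := (Bool.and_eq_true_iff.1 b2.symm).2
    rw [c1, c2] at b3
    exact absurd b3 (by decide)
  have hx1 : e1.1 ≠ e.1 := by
    intro e'
    have h1 := he1.1
    rw [e'] at h1
    exact n1 (Prod.ext e'.symm (sx_inj h he.1 h1))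
  have hx2 : e2.1 ≠ e.1 := by
    intro e'
    have h1 := he2.1
    rw [e'] at h1
    exact n2 (Prod.ext e'.symm (sx_inj h he.1 h1))
  by_cases hy1 : e1.2 = y'
  · refine key e2 he2.1 he2.2.1 he2.2.2 hx2 ?_
    intro hy2
    have h1 := he1.1
    have h2 := he2.1
    rw [hy1] at h1
    rw [hy2] at h2
    exact n3 (Prod.ext (sy_inj h h1 h2) (hy1.trans hy2.symm))
  · exact key e1 he1.1 he1.2.1 he1.2.2 hx1 hy1

/-- Quadruples `(s, t, x, y)` with `s ≠ t` and `(x, y) ∈ E T s t`. -/
def R (T : Finset (V × V × V)) : Finset ((V × V) × (V × V)) :=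
  univ.filter fun q => q.1.1 ≠ q.1.2 ∧ q.2 ∈ E T q.1.1 q.1.2

theorem card_R_le {T : Finset (V × V × V)} (h : IsAndSys T) :
    (R T).card ≤ 2 * Fintype.card V ^ 2 := by
  have := Finset.card_le_mul_card_image_of_maps_to (f := fun q : (V × V) × (V × V) => q.1)
    (s := R T) (t := univ) (fun _ _ => mem_univ _) 2 (by
      intro b _
      by_cases hb : b.1 = b.2
      · rw [Finset.card_eq_zero.2]
        · norm_num
        · apply Finset.filter_eq_empty_iff.2
          intro q hq e
          simp only [R, mem_filter, mem_univ, true_and] at hq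
          apply hq.1
          rw [e, hb]
      · refine le_trans ?_ (card_E_le h hb)
        apply Finset.card_le_card_of_injOn (fun q => q.2)
        · intro q hq
          simp only [R, coe_filter, mem_filter, mem_univ, true_and, Set.mem_ofPred_eq] at hq
          obtain ⟨⟨_, h2⟩, rfl⟩ := hq
          exact h2
        · intro q hq q' hq' e
          simp only [coe_filter, Set.mem_ofPred_eq] at hq hq'
          exact Prod.ext (hq.2.trans hq'.2.symm) e)
  simpa [Finset.card_univ, sq] using this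

/-- An AND-system has at most `|V|²` triples. -/
theorem card_le_sq {T : Finset (V × V × V)} (h : IsAndSys T) :
    T.card ≤ Fintype.card V ^ 2 := by
  have : T.card ≤ (univ : Finset (V × V)).card := by
    apply Finset.card_le_card_of_injOn (fun t => (t.1, t.2.1)) (fun _ _ => mem_coe.2 (mem_univ _))
    rintro ⟨s, x, y⟩ h1 ⟨s', x', y'⟩ h2 e
    simp only [Prod.mk.injEq] at e
    obtain ⟨rfl, rfl⟩ := e
    rw [sx_inj h h1 h2]
  simpa [Finset.card_univ, sq] using this

/-- Passing to one triple for each pair `(x, y)` loses only a bounded factor. -/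
theorem card_sq_le {T : Finset (V × V × V)} (h : IsAndSys T) :
    T.card ^ 2 ≤ (T.image fun t => t.2).card * (3 * Fintype.card V ^ 2) := by
  set D := T.image fun t => t.2 with hD
  have h1 : T.card = ∑ p ∈ D, #{t ∈ T | t.2 = p} :=
    Finset.card_eq_sum_card_fiberwise (fun t ht => mem_coe.2 (mem_image_of_mem _ ht))
  set S := (T ×ˢ T).filter fun q => q.1.2 = q.2.2 with hS
  have h2 : S.card = ∑ p ∈ D, #{q ∈ S | q.1.2 = p} :=
    Finset.card_eq_sum_card_fiberwise (fun q hq => by
      simp only [hS, coe_filter, mem_product, Set.mem_ofPred_eq] at hq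
      exact mem_coe.2 (mem_image_of_mem _ hq.1.1))
  have h3 : ∀ p, #{q ∈ S | q.1.2 = p} = #{t ∈ T | t.2 = p} ^ 2 := by
    intro p
    rw [sq, ← Finset.card_product]
    congr 1
    ext q
    simp only [hS, mem_filter, mem_product]
    constructor
    · rintro ⟨⟨⟨a, b⟩, c⟩, d⟩
      exact ⟨⟨a, d⟩, b, c ▸ d⟩
    · rintro ⟨⟨a, d⟩, b, c⟩
      exact ⟨⟨⟨a, b⟩, d.trans c.symm⟩, d⟩
  have h4 : S.card ≤ T.card + (R T).card := by
    have : S ⊆ (T.image fun t => (t, t)) ∪
        (R T).image fun q => ((q.1.1, q.2.1, q.2.2), (q.1.2, q.2.1, q.2.2)) := by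
      rintro ⟨⟨s, x, y⟩, ⟨s', x', y'⟩⟩ hq
      simp only [hS, mem_filter, mem_product, Prod.mk.injEq] at hq
      obtain ⟨⟨a, b⟩, rfl, rfl⟩ := hq
      rw [mem_union]
      by_cases hss : s = s'
      · left
        subst hss
        exact mem_image.2 ⟨_, a, rfl⟩
      · right
        refine mem_image.2 ⟨((s, s'), (x, y)), ?_, rfl⟩
        simp only [R, E, mem_filter, mem_univ, true_and]
        exact ⟨hss, b, ⟨_, a⟩, ⟨_, a⟩⟩
    calc S.card ≤ _ := Finset.card_le_card this
      _ ≤ _ := Finset.card_union_le _ _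
      _ ≤ _ := Nat.add_le_add Finset.card_image_le Finset.card_image_le
  have h5 : S.card ≤ 3 * Fintype.card V ^ 2 := by
    have := card_R_le h
    have := card_le_sq h
    omega
  calc T.card ^ 2 = (∑ p ∈ D, #{t ∈ T | t.2 = p}) ^ 2 := by rw [← h1]
    _ ≤ D.card * ∑ p ∈ D, #{t ∈ T | t.2 = p} ^ 2 := sq_sum_le_card_mul_sum_sq
    _ = D.card * S.card := by rw [h2]; simp_rw [h3]
    _ ≤ _ := Nat.mul_le_mul_left _ h5

theorem mono {T D : Finset (V × V × V)} (h : IsAndSys T) (hD : D ⊆ T) : IsAndSys D := by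
  intro t ht
  obtain ⟨ψ, a, b, c, d⟩ := h t (hD ht)
  exact ⟨ψ, a, b, c, fun t' ht' => d t' (hD ht')⟩

open TripartiteFromTriangles Sum3

/-- The number of triangles. -/
theorem card_clique_le {D : Finset (V × V × V)} (h : IsAndSys D) :
    #((graph D).cliqueFinset 3) ≤ 3 * Fintype.card V ^ 2 := by
  have hsub : (graph D).cliqueFinset 3 ⊆ (D.image fun t => toTriangle t) ∪
      (R D).image fun q => toTriangle (q.1.1, q.2.1, q.2.2) := by
    intro s hs
    rw [mem_cliqueFinset_iff, SimpleGraph.is3Clique_iff] at hs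
    obtain ⟨x, y, z, hxy, hxz, hyz, rfl⟩ := hs
    obtain ⟨a, b, c, habc, hab, hac, hbc⟩ := graph_triple hxy hxz hyz
    obtain ⟨c', hc'⟩ := Graph.in₀₁_iff.1 hab
    obtain ⟨b', hb'⟩ := Graph.in₀₂_iff.1 hac
    obtain ⟨a', ha'⟩ := Graph.in₁₂_iff.1 hbc
    rw [mem_union]
    by_cases haa : a = a'
    · left
      subst haa
      exact mem_image.2 ⟨(a, b, c), ha', habc⟩
    · right
      refine mem_image.2 ⟨((a, a'), (b, c)), ?_, habc⟩
      simp only [R, E, mem_filter, mem_univ, true_and]
      exact ⟨haa, ha', ⟨_, hc'⟩, ⟨_, hb'⟩⟩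
  have h1 := card_R_le h
  have h2 := card_le_sq h
  calc _ ≤ _ := Finset.card_le_card hsub
    _ ≤ _ := Finset.card_union_le _ _
    _ ≤ _ := Nat.add_le_add Finset.card_image_le Finset.card_image_le
    _ ≤ _ := by omega

/-- If the triples have distinct pairs `(x, y)`, there are few of them. -/
theorem few (ε : ℝ) (hε : 0 < ε) (D : Finset (V × V × V)) (h : IsAndSys D)
    (hinj : Set.InjOn (fun t : V × V × V => t.2) D)
    (hn : 3 < 27 * triangleRemovalBound ε * Fintype.card V) :
    (#D : ℝ) < 9 * ε * Fintype.card V ^ 2 := by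
  by_contra hc
  push Not at hc
  have : ExplicitDisjoint D :=
    { inj₀ := fun a b c a' h1 h2 => by
        have := hinj h1 h2 rfl
        simpa using this
      inj₁ := fun a b c b' h1 h2 => sy_inj h h1 h2
      inj₂ := fun a b c c' h1 h2 => sx_inj h h1 h2 }
  have hfar : (graph D).FarFromTriangleFree ε := by
    apply farFromTriangleFree
    push_cast
    have : ε * ((Fintype.card V : ℝ) + Fintype.card V + Fintype.card V) ^ 2 =
        9 * ε * Fintype.card V ^ 2 := by ring
    rw [this]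
    exact hc
  have h1 := hfar.le_card_cliqueFinset
  have h2 : (#((graph D).cliqueFinset 3) : ℝ) ≤ 3 * (Fintype.card V : ℝ) ^ 2 := by
    exact_mod_cast card_clique_le h
  have h3 : (Fintype.card (V ⊕ V ⊕ V) : ℝ) = 3 * Fintype.card V := by
    simp only [Fintype.card_sum]
    push_cast
    ring
  rw [h3] at h1
  have hpos : 0 < triangleRemovalBound ε := triangleRemovalBound_pos hε
  have hV : 0 < (Fintype.card V : ℝ) := by
    by_contra hV
    have : (Fintype.card V : ℝ) = 0 := le_antisymm (not_lt.1 hV) (Nat.cast_nonneg _)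
    rw [this] at hn
    norm_num at hn
  have h4 := h1.trans h2
  have h5 : 3 * (Fintype.card V : ℝ) ^ 2 <
      (27 * triangleRemovalBound ε * Fintype.card V) * (Fintype.card V : ℝ) ^ 2 :=
    mul_lt_mul_of_pos_right hn (by positivity)
  nlinarith [h4, h5]

/-- AND-systems have `o(n²)` triples. -/
theorem card_small (δ : ℝ) (hδ : 0 < δ) : ∃ N : ℕ, ∀ (V : Type) [Fintype V] [DecidableEq V],
    N ≤ Fintype.card V → ∀ T : Finset (V × V × V), IsAndSys T →
      (#T : ℝ) ≤ δ * Fintype.card V ^ 2 := by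
  set ε : ℝ := δ ^ 2 / 27 with hεdef
  have hε : 0 < ε := by positivity
  have hpos : 0 < triangleRemovalBound ε := triangleRemovalBound_pos hε
  obtain ⟨N, hN⟩ := exists_nat_gt (3 / (27 * triangleRemovalBound ε))
  refine ⟨N, fun V _ _ hV T hT => ?_⟩
  have hn : 3 < 27 * triangleRemovalBound ε * Fintype.card V := by
    have h1 : 3 / (27 * triangleRemovalBound ε) < Fintype.card V :=
      lt_of_lt_of_le hN (by exact_mod_cast hV)
    rw [div_lt_iff₀ (by positivity)] at h1
    linarith
  obtain ⟨D, hDT, hinj, himg⟩ := exists_subset_injOn_image_eq_of_surjOn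
    (f := fun t : V × V × V => t.2) (s := (T : Set (V × V × V)))
    (T.image fun t => t.2) (by
      intro p hp
      simpa using hp)
  have h1 := few ε hε D (mono hT (by exact_mod_cast hDT)) hinj hn
  have h2 := card_sq_le hT
  have h3 : (T.image fun t => t.2).card ≤ D.card := by
    rw [← himg]; exact Finset.card_image_le
  have h4 : (#T : ℝ) ^ 2 ≤ (#D : ℝ) * (3 * (Fintype.card V : ℝ) ^ 2) := by
    have : T.card ^ 2 ≤ D.card * (3 * Fintype.card V ^ 2) :=
      h2.trans (Nat.mul_le_mul_right _ h3)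
    exact_mod_cast this
  have h5 : (#T : ℝ) ^ 2 ≤ (δ * Fintype.card V ^ 2) ^ 2 := by
    calc (#T : ℝ) ^ 2 ≤ (#D : ℝ) * (3 * (Fintype.card V : ℝ) ^ 2) := h4
      _ ≤ (9 * ε * Fintype.card V ^ 2) * (3 * (Fintype.card V : ℝ) ^ 2) :=
        mul_le_mul_of_nonneg_right h1.le (by positivity)
      _ = _ := by rw [hεdef]; ring
  exact le_of_sq_le_sq h5 (by positivity)

end Pool.Agent.R556.AndSys
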