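import Mathlib

/-!
# Extending and amalgamating polymatroids

Helper file for `MP_e7d137_lc`: principal extensions, free extensions and amalgams of real valued
polymatroids on the finite subsets of `ℕ`.
-/

set_option autoImplicit false

namespace Pool.Agent.R556.PolyExt

open Finset

/-- polymatroids on the finite subsets of `ℕ` -/
def IsPoly (f : Finset ℕ → ℝ) : Prop :=
  f ∅ = 0 ∧ (∀ S T, S ⊆ T → f S ≤ f T) ∧ ∀ S T, f (S ∪ T) + f (S ∩ T) ≤ f S + f T

/-- the new element `x` is placed freely on the flat spanned by `F`, with rank at most `l` -/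
noncomputable def prin (f : Finset ℕ → ℝ) (x : ℕ) (F : Finset ℕ) (l : ℝ) (S : Finset ℕ) : ℝ :=
  if x ∈ S then min (f (S.erase x) + l) (f (S.erase x ∪ F)) else f S

theorem prin_of_notMem {f : Finset ℕ → ℝ} {x : ℕ} {F : Finset ℕ} {l : ℝ} {S : Finset ℕ}
    (h : x ∉ S) : prin f x F l S = f S := by
  unfold prin; rw [if_neg h]

theorem prin_insert {f : Finset ℕ → ℝ} {x : ℕ} {F : Finset ℕ} {l : ℝ} {S : Finset ℕ}
    (h : x ∉ S) : prin f x F l (insert x S) = min (f S + l) (f (S ∪ F)) := by
  unfold prin; rw [if_pos (Finset.mem_insert_self _ _), Finset.erase_insert h]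

theorem prin_poly {f : Finset ℕ → ℝ} (hf : IsPoly f) {x : ℕ} {F : Finset ℕ} {l : ℝ} (hl : 0 ≤ l) :
    IsPoly (prin f x F l) := by
  obtain ⟨h0, hm, hs⟩ := hf
  have hle : ∀ S, x ∈ S → prin f x F l S ≤ f (S.erase x) + l := by
    intro S hS
    unfold prin; rw [if_pos hS]; exact min_le_left _ _
  have hle' : ∀ S, x ∈ S → prin f x F l S ≤ f (S.erase x ∪ F) := by
    intro S hS
    unfold prin; rw [if_pos hS]; exact min_le_right _ _
  have hn : ∀ S, x ∉ S → prin f x F l S = f S := fun S hS => prin_of_notMem hS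
  have hc : ∀ S, x ∈ S → prin f x F l S = f (S.erase x) + l ∨
      prin f x F l S = f (S.erase x ∪ F) := by
    intro S hS
    unfold prin; rw [if_pos hS]
    exact min_choice _ _
  have hge : ∀ S, x ∈ S → f (S.erase x) ≤ prin f x F l S := by
    intro S hS
    unfold prin; rw [if_pos hS]
    exact le_min (by linarith) (hm _ _ Finset.subset_union_left)
  refine ⟨?_, ?_, ?_⟩
  · rw [hn _ (Finset.notMem_empty _)]; exact h0
  · intro S T hST
    by_cases hS : x ∈ S
    · have hT := hST hS
      have h1 := Finset.erase_subset_erase x hST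
      unfold prin
      rw [if_pos hS, if_pos hT]
      exact min_le_min (by linarith [hm _ _ h1]) (hm _ _ (Finset.union_subset_union h1 le_rfl))
    · rw [hn S hS]
      by_cases hT : x ∈ T
      · refine le_trans (hm _ _ ?_) (hge T hT)
        exact Finset.subset_erase.2 ⟨hST, hS⟩
      · rw [hn T hT]; exact hm _ _ hST
  · -- submodularity
    -- first the case where `x` is in `S`, not in `T`
    have key : ∀ S T, x ∈ S → x ∉ T → prin f x F l (S ∪ T) + prin f x F l (S ∩ T) ≤
        prin f x F l S + prin f x F l T := by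
      intro S T hS hT
      have hu : x ∈ S ∪ T := Finset.mem_union_left _ hS
      have hi : x ∉ S ∩ T := fun h => hT (Finset.mem_inter.1 h).2
      rw [hn _ hi, hn _ hT]
      have e1 : (S ∪ T).erase x = S.erase x ∪ T := by
        ext i; simp only [Finset.mem_erase, Finset.mem_union]
        constructor
        · rintro ⟨h1, h2 | h2⟩
          · exact Or.inl ⟨h1, h2⟩
          · exact Or.inr h2
        · rintro (⟨h1, h2⟩ | h2)
          · exact ⟨h1, Or.inl h2⟩
          · exact ⟨fun h => hT (h ▸ h2), Or.inr h2⟩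
      have e2 : S ∩ T = S.erase x ∩ T := by
        ext i; simp only [Finset.mem_erase, Finset.mem_inter]
        constructor
        · rintro ⟨h1, h2⟩
          exact ⟨⟨fun h => hT (h ▸ h2), h1⟩, h2⟩
        · rintro ⟨⟨_, h1⟩, h2⟩
          exact ⟨h1, h2⟩
      rcases hc S hS with h | h
      · rw [h, e2]
        have h1 := hle _ hu
        rw [e1] at h1
        have h2 := hs (S.erase x) T
        linarith
      · rw [h]
        have h1 := hle' _ hu
        rw [e1] at h1
        have h2 := hs (S.erase x ∪ F) T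
        have e3 : S.erase x ∪ F ∪ T = S.erase x ∪ T ∪ F := by
          rw [Finset.union_assoc, Finset.union_comm F T, ← Finset.union_assoc]
        rw [e3] at h2
        have h3 : f (S ∩ T) ≤ f ((S.erase x ∪ F) ∩ T) := by
          rw [e2]
          exact hm _ _ (Finset.inter_subset_inter Finset.subset_union_left le_rfl)
        linarith
    have key2 : ∀ S T, x ∈ S → x ∈ T → prin f x F l S = f (S.erase x) + l →
        prin f x F l (S ∪ T) + prin f x F l (S ∩ T) ≤ prin f x F l S + prin f x F l T := by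
      intro S T hS hT h
      have hu : x ∈ S ∪ T := Finset.mem_union_left _ hS
      have hi : x ∈ S ∩ T := Finset.mem_inter.2 ⟨hS, hT⟩
      have e1 : (S ∪ T).erase x = S.erase x ∪ T.erase x := Finset.erase_union_distrib _ _ _
      have e2 : (S ∩ T).erase x = S.erase x ∩ T.erase x := by
        ext i; simp only [Finset.mem_erase, Finset.mem_inter]; tauto
      rw [h]
      rcases hc T hT with h' | h'
      · rw [h']
        have h1 := hle _ hu
        have h2 := hle _ hi
        rw [e1] at h1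
        rw [e2] at h2
        have h3 := hs (S.erase x) (T.erase x)
        linarith
      · rw [h']
        have h1 := hle' _ hu
        have h2 := hle _ hi
        rw [e1] at h1
        rw [e2] at h2
        have h3 := hs (S.erase x) (T.erase x ∪ F)
        rw [← Finset.union_assoc] at h3
        have h4 : f (S.erase x ∩ T.erase x) ≤ f (S.erase x ∩ (T.erase x ∪ F)) :=
          hm _ _ (Finset.inter_subset_inter le_rfl Finset.subset_union_left)
        linarith
    intro S T
    by_cases hS : x ∈ S <;> by_cases hT : x ∈ T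
    · rcases hc S hS with h | h
      · exact key2 S T hS hT h
      · rcases hc T hT with h' | h'
        · have := key2 T S hT hS h'
          rw [Finset.union_comm, Finset.inter_comm]
          linarith
        · have hu : x ∈ S ∪ T := Finset.mem_union_left _ hS
          have hi : x ∈ S ∩ T := Finset.mem_inter.2 ⟨hS, hT⟩
          have e1 : (S ∪ T).erase x = S.erase x ∪ T.erase x := Finset.erase_union_distrib _ _ _
          have e2 : (S ∩ T).erase x = S.erase x ∩ T.erase x := by
            ext i; simp only [Finset.mem_erase, Finset.mem_inter]; tauto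
          rw [h, h']
          have h1 := hle' _ hu
          have h2 := hle' _ hi
          rw [e1] at h1
          rw [e2] at h2
          have h3 := hs (S.erase x ∪ F) (T.erase x ∪ F)
          have e3 : S.erase x ∪ F ∪ (T.erase x ∪ F) = S.erase x ∪ T.erase x ∪ F := by
            ext i; simp only [Finset.mem_union]; tauto
          have e4 : (S.erase x ∪ F) ∩ (T.erase x ∪ F) = S.erase x ∩ T.erase x ∪ F := by
            ext i; simp only [Finset.mem_union, Finset.mem_inter]; tauto
          rw [e3, e4] at h3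
          linarith
    · exact key S T hS hT
    · have := key T S hT hS
      rw [Finset.union_comm, Finset.inter_comm]
      linarith
    · have hu : x ∉ S ∪ T := by simp [hS, hT]
      have hi : x ∉ S ∩ T := by simp [hS]
      rw [hn _ hu, hn _ hi, hn _ hS, hn _ hT]
      exact hs S T

/-- the new element `x` is independent of everything and has rank `c` -/
noncomputable def free (f : Finset ℕ → ℝ) (x : ℕ) (c : ℝ) (S : Finset ℕ) : ℝ :=
  f (S.erase x) + if x ∈ S then c else 0

theorem free_of_notMem {f : Finset ℕ → ℝ} {x : ℕ} {c : ℝ} {S : Finset ℕ}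
    (h : x ∉ S) : free f x c S = f S := by
  unfold free; rw [if_neg h, Finset.erase_eq_of_notMem h, add_zero]

theorem free_insert {f : Finset ℕ → ℝ} {x : ℕ} {c : ℝ} {S : Finset ℕ}
    (h : x ∉ S) : free f x c (insert x S) = f S + c := by
  unfold free; rw [if_pos (Finset.mem_insert_self _ _), Finset.erase_insert h]

theorem free_poly {f : Finset ℕ → ℝ} (hf : IsPoly f) {x : ℕ} {c : ℝ} (hc : 0 ≤ c) :
    IsPoly (free f x c) := by
  obtain ⟨h0, hm, hs⟩ := hf
  refine ⟨?_, ?_, ?_⟩
  · rw [free_of_notMem (Finset.notMem_empty _)]; exact h0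
  · intro S T hST
    unfold free
    have h1 := hm _ _ (Finset.erase_subset_erase x hST)
    have h2 : (if x ∈ S then c else 0) ≤ (if x ∈ T then c else 0) := by
      by_cases hS : x ∈ S
      · rw [if_pos hS, if_pos (hST hS)]
      · rw [if_neg hS]; split_ifs <;> linarith
    linarith
  · intro S T
    unfold free
    have e1 : (S ∪ T).erase x = S.erase x ∪ T.erase x := Finset.erase_union_distrib _ _ _
    have e2 : (S ∩ T).erase x = S.erase x ∩ T.erase x := by
      ext i; simp only [Finset.mem_erase, Finset.mem_inter]; tauto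
    rw [e1, e2]
    have h1 := hs (S.erase x) (T.erase x)
    have h2 : (if x ∈ S ∪ T then c else 0) + (if x ∈ S ∩ T then c else 0) =
        (if x ∈ S then c else 0) + (if x ∈ T then c else 0) := by
      by_cases hS : x ∈ S <;> by_cases hT : x ∈ T <;> simp [hS, hT]
    linarith

set_option maxHeartbeats 4000000 in
/-- **The extension lemma.** If the polymatroid `f` has a common information `κ` of the sets
`A`, `B`, then it has an extension with a set `C` for which the values on `C`, `A ∪ C`, `B ∪ C`,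
`A ∪ B ∪ C` are prescribed, together with common informations of `A, C` and `B, C`. -/
theorem ext_pair {f : Finset ℕ → ℝ} (hf : IsPoly f) {N : ℕ} {A B κ : Finset ℕ}
    (hAN : A ⊆ range N) (hBN : B ⊆ range N) (hκN : κ ⊆ range N)
    (hκ : f κ = f A + f B - f (A ∪ B)) (hA : f (A ∪ κ) = f A) (hB : f (B ∪ κ) = f B)
    {c ac bc abc : ℝ} (h1 : c ≤ ac) (h2 : c ≤ bc) (h3 : f A ≤ ac) (h4 : f B ≤ bc)
    (h6 : ac ≤ abc) (h7 : bc ≤ abc) (h8 : f (A ∪ B) ≤ abc)
    (h9 : ac ≤ f A + c) (h10 : bc ≤ f B + c) (h11 : abc + c ≤ ac + bc)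
    (h12 : abc + f A ≤ f (A ∪ B) + ac) (h13 : abc + f B ≤ f (A ∪ B) + bc) :
    ∃ (f' : Finset ℕ → ℝ) (C : Finset ℕ), IsPoly f' ∧ (∀ S ⊆ range N, f' S = f S) ∧
      C ⊆ range (N + 5) ∧ f' C = c ∧ f' (A ∪ C) = ac ∧ f' (B ∪ C) = bc ∧
      f' (A ∪ B ∪ C) = abc ∧
      (∃ κ' ⊆ range (N + 5), f' κ' = f' A + f' C - f' (A ∪ C) ∧ f' (A ∪ κ') = f' A ∧
        f' (C ∪ κ') = f' C) ∧
      (∃ κ' ⊆ range (N + 5), f' κ' = f' B + f' C - f' (B ∪ C) ∧ f' (B ∪ κ') = f' B ∧
        f' (C ∪ κ') = f' C) := by
  have hf' := hf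
  obtain ⟨hf0, hfm, hfs⟩ := hf'
  -- the parameters
  obtain ⟨ν, hν0, hν1, hν2, hν3, hν4⟩ : ∃ ν : ℝ, 0 ≤ ν ∧ 0 ≤ (f A + c - ac) - (f (A ∪ B) + bc - abc - f B) + ν ∧
      ν ≤ (f (A ∪ B) + ac - abc - f A) ∧ ν ≤ f (A ∪ B) + bc - abc - f B ∧
      (f A + c - ac) - (f (A ∪ B) + bc - abc - f B) + ν ≤ f κ := by
    refine ⟨max 0 (-((f A + c - ac) - (f (A ∪ B) + bc - abc - f B))), le_max_left _ _, ?_, ?_, ?_, ?_⟩
    · have := le_max_right 0 (-((f A + c - ac) - (f (A ∪ B) + bc - abc - f B)))
      linarith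
    · exact max_le (by linarith) (by linarith)
    · exact max_le (by linarith) (by linarith)
    · rw [hκ]
      rcases le_total 0 (-((f A + c - ac) - (f (A ∪ B) + bc - abc - f B))) with h | h
      · rw [max_eq_right h]; 
        have := hfs A B
        have := hfm ∅ (A ∩ B) (Finset.empty_subset _)
        linarith
      · rw [max_eq_left h]; linarith
  obtain ⟨ξ, hξ⟩ : ∃ ξ : ℝ, ξ = (f A + c - ac) - (f (A ∪ B) + bc - abc - f B) + ν := ⟨_, rfl⟩
  obtain ⟨lam, hlam⟩ : ∃ l : ℝ, l = f (A ∪ B) + bc - abc - f B - ν := ⟨_, rfl⟩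
  obtain ⟨μ, hμ⟩ : ∃ l : ℝ, l = f (A ∪ B) + ac - abc - f A - ν := ⟨_, rfl⟩
  obtain ⟨γ, hγ⟩ : ∃ l : ℝ, l = abc - f (A ∪ B) := ⟨_, rfl⟩
  have hξ0 : 0 ≤ ξ := by linarith
  have hξ1 : ξ ≤ f κ := by linarith
  have hlam0 : 0 ≤ lam := by linarith
  have hμ0 : 0 ≤ μ := by linarith
  have hγ0 : 0 ≤ γ := by linarith
  -- basic values of `f`
  have fABκ : f (A ∪ B ∪ κ) = f (A ∪ B) := by
    apply le_antisymm
    · have := hfs (A ∪ B) (A ∪ κ)
      have e : A ∪ B ∪ (A ∪ κ) = A ∪ B ∪ κ := by ext i; simp only [Finset.mem_union]; tauto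
      rw [e, hA] at this
      have := hfm A ((A ∪ B) ∩ (A ∪ κ)) (by
        intro i hi; simp [hi])
      linarith
    · exact hfm _ _ Finset.subset_union_left
  have fA0 : 0 ≤ f A := by rw [← hf0]; exact hfm _ _ (Finset.empty_subset _)
  have fB0 : 0 ≤ f B := by rw [← hf0]; exact hfm _ _ (Finset.empty_subset _)
  have fAB1 : f A ≤ f (A ∪ B) := hfm _ _ Finset.subset_union_left
  have fAB2 : f B ≤ f (A ∪ B) := hfm _ _ Finset.subset_union_right
  -- new elements are new
  have nN : ∀ Z ⊆ range N, ∀ k, N + k ∉ Z := by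
    intro Z hZ k h
    have := hZ h
    simp at this
  have hABN : A ∪ B ⊆ range N := Finset.union_subset hAN hBN
  -- the successive extensions
  obtain ⟨f1, hf1⟩ : ∃ f1, f1 = prin f (N + 0) κ ξ := ⟨_, rfl⟩
  obtain ⟨f2, hf2⟩ : ∃ f2, f2 = prin f1 (N + 1) A lam := ⟨_, rfl⟩
  obtain ⟨f3, hf3⟩ : ∃ f3, f3 = prin f2 (N + 2) B μ := ⟨_, rfl⟩
  obtain ⟨f4, hf4⟩ : ∃ f4, f4 = prin f3 (N + 3) (A ∪ B) ν := ⟨_, rfl⟩
  obtain ⟨f5, hf5⟩ : ∃ f5, f5 = free f4 (N + 4) γ := ⟨_, rfl⟩
  have p1 : IsPoly f1 := by rw [hf1]; exact prin_poly hf hξ0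
  have p2 : IsPoly f2 := by rw [hf2]; exact prin_poly p1 hlam0
  have p3 : IsPoly f3 := by rw [hf3]; exact prin_poly p2 hμ0
  have p4 : IsPoly f4 := by rw [hf4]; exact prin_poly p3 hν0
  have p5 : IsPoly f5 := by rw [hf5]; exact free_poly p4 hγ0
  -- membership facts
  have m1 : ∀ Z ⊆ range N, N + 1 ∉ insert (N + 0) Z := by
    intro Z hZ; simp only [Finset.mem_insert, not_or]; exact ⟨by omega, nN Z hZ 1⟩
  have m2 : ∀ Z ⊆ range N, N + 2 ∉ insert (N + 1) (insert (N + 0) Z) := by
    intro Z hZ; simp only [Finset.mem_insert, not_or]; exact ⟨by omega, by omega, nN Z hZ 2⟩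
  have m3 : ∀ Z ⊆ range N, N + 3 ∉ insert (N + 2) (insert (N + 1) (insert (N + 0) Z)) := by
    intro Z hZ; simp only [Finset.mem_insert, not_or]
    exact ⟨by omega, by omega, by omega, nN Z hZ 3⟩
  have m4 : ∀ Z ⊆ range N, N + 4 ∉
      insert (N + 3) (insert (N + 2) (insert (N + 1) (insert (N + 0) Z))) := by
    intro Z hZ; simp only [Finset.mem_insert, not_or]
    exact ⟨by omega, by omega, by omega, by omega, nN Z hZ 4⟩
  have E1 : ∀ Z ⊆ range N, f1 (insert (N + 0) Z) = min (f Z + ξ) (f (Z ∪ κ)) := by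
    intro Z hZ; rw [hf1, prin_insert (nN Z hZ 0)]
  have E2 : ∀ Z ⊆ range N, f2 (insert (N + 1) (insert (N + 0) Z)) =
      min (f1 (insert (N + 0) Z) + lam) (f1 (insert (N + 0) (Z ∪ A))) := by
    intro Z hZ; rw [hf2, prin_insert (m1 Z hZ), Finset.insert_union]
  have E3 : ∀ Z ⊆ range N, f3 (insert (N + 2) (insert (N + 1) (insert (N + 0) Z))) =
      min (f2 (insert (N + 1) (insert (N + 0) Z)) + μ)
        (f2 (insert (N + 1) (insert (N + 0) (Z ∪ B)))) := by
    intro Z hZ; rw [hf3, prin_insert (m2 Z hZ), Finset.insert_union, Finset.insert_union]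
  have E4 : ∀ Z ⊆ range N, f4 (insert (N + 3) (insert (N + 2) (insert (N + 1)
      (insert (N + 0) Z)))) =
      min (f3 (insert (N + 2) (insert (N + 1) (insert (N + 0) Z))) + ν)
        (f3 (insert (N + 2) (insert (N + 1) (insert (N + 0) (Z ∪ (A ∪ B)))))) := by
    intro Z hZ
    rw [hf4, prin_insert (m3 Z hZ), Finset.insert_union, Finset.insert_union, Finset.insert_union]
  have E5 : ∀ Z ⊆ range N, f5 (insert (N + 4) (insert (N + 3) (insert (N + 2) (insert (N + 1)
      (insert (N + 0) Z))))) =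
      f4 (insert (N + 3) (insert (N + 2) (insert (N + 1) (insert (N + 0) Z)))) + γ := by
    intro Z hZ
    rw [hf5, free_insert (m4 Z hZ)]
  -- values of f1
  have zN : (∅ : Finset ℕ) ⊆ range N := Finset.empty_subset _
  have a1 : f1 (insert (N + 0) ∅) = ξ := by
    rw [E1 _ zN, hf0, Finset.empty_union, zero_add, min_eq_left hξ1]
  have a2 : f1 (insert (N + 0) A) = f A := by
    rw [E1 _ hAN, hA, min_eq_right (by linarith)]
  have a3 : f1 (insert (N + 0) B) = f B := by
    rw [E1 _ hBN, hB, min_eq_right (by linarith)]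
  have a4 : f1 (insert (N + 0) (A ∪ B)) = f (A ∪ B) := by
    rw [E1 _ hABN, fABκ, min_eq_right (by linarith)]
  -- set identities
  have s1 : A ∪ A = A := Finset.union_self _
  have s2 : B ∪ A = A ∪ B := Finset.union_comm _ _
  have s3 : A ∪ B ∪ A = A ∪ B := by ext i; simp only [Finset.mem_union]; tauto
  have s4 : A ∪ B ∪ B = A ∪ B := by ext i; simp only [Finset.mem_union]; tauto
  have s5 : B ∪ B = B := Finset.union_self _
  have s6 : A ∪ (A ∪ B) = A ∪ B := by ext i; simp only [Finset.mem_union]; tauto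
  have s7 : B ∪ (A ∪ B) = A ∪ B := by ext i; simp only [Finset.mem_union]; tauto
  have s8 : A ∪ B ∪ (A ∪ B) = A ∪ B := Finset.union_self _
  -- values of f2
  have b1 : f2 (insert (N + 1) (insert (N + 0) ∅)) = ξ + lam := by
    rw [E2 _ zN, Finset.empty_union, a1, a2, min_eq_left]
    linarith
  have b2 : f2 (insert (N + 1) (insert (N + 0) A)) = f A := by
    rw [E2 _ hAN, s1, a2, min_eq_right (by linarith)]
  have b3 : f2 (insert (N + 1) (insert (N + 0) B)) = f B + lam := by
    rw [E2 _ hBN, s2, a3, a4, min_eq_left (by linarith)]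
  have b4 : f2 (insert (N + 1) (insert (N + 0) (A ∪ B))) = f (A ∪ B) := by
    rw [E2 _ hABN, s3, a4, min_eq_right (by linarith)]
  -- values of f3
  have c1 : f3 (insert (N + 2) (insert (N + 1) (insert (N + 0) ∅))) = ξ + lam + μ := by
    rw [E3 _ zN, Finset.empty_union, b1, b3, min_eq_left]
    linarith
  have c2 : f3 (insert (N + 2) (insert (N + 1) (insert (N + 0) A))) = f A + μ := by
    rw [E3 _ hAN, b2, b4, min_eq_left (by linarith)]
  have c3 : f3 (insert (N + 2) (insert (N + 1) (insert (N + 0) B))) = f B + lam := by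
    rw [E3 _ hBN, s5, b3, min_eq_right (by linarith)]
  have c4 : f3 (insert (N + 2) (insert (N + 1) (insert (N + 0) (A ∪ B)))) = f (A ∪ B) := by
    rw [E3 _ hABN, s4, b4, min_eq_right (by linarith)]
  -- values of f4
  have d1 : f4 (insert (N + 3) (insert (N + 2) (insert (N + 1) (insert (N + 0) ∅)))) =
      ξ + lam + μ + ν := by
    rw [E4 _ zN, Finset.empty_union, c1, c4, min_eq_left]
    linarith
  have d2 : f4 (insert (N + 3) (insert (N + 2) (insert (N + 1) (insert (N + 0) A)))) =
      f A + μ + ν := by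
    rw [E4 _ hAN, s6, c2, c4, min_eq_left (by linarith)]
  have d3 : f4 (insert (N + 3) (insert (N + 2) (insert (N + 1) (insert (N + 0) B)))) =
      f B + lam + ν := by
    rw [E4 _ hBN, s7, c3, c4, min_eq_left (by linarith)]
  have d4 : f4 (insert (N + 3) (insert (N + 2) (insert (N + 1) (insert (N + 0) (A ∪ B))))) =
      f (A ∪ B) := by
    rw [E4 _ hABN, s8, c4, min_eq_right (by linarith)]
  -- the other values
  have f5low : ∀ Z ⊆ range N, f5 Z = f Z := by
    intro Z hZ
    rw [hf5, free_of_notMem (nN Z hZ 4), hf4, prin_of_notMem (nN Z hZ 3), hf3,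
      prin_of_notMem (nN Z hZ 2), hf2, prin_of_notMem (nN Z hZ 1), hf1,
      prin_of_notMem (nN Z hZ 0)]
  have g1 : ∀ Z ⊆ range N, f5 (insert (N + 1) (insert (N + 0) Z)) =
      f2 (insert (N + 1) (insert (N + 0) Z)) := by
    intro Z hZ
    have t4 : N + 4 ∉ insert (N + 1) (insert (N + 0) Z) := by
      simp only [Finset.mem_insert, not_or]; exact ⟨by omega, by omega, nN Z hZ 4⟩
    have t3 : N + 3 ∉ insert (N + 1) (insert (N + 0) Z) := by
      simp only [Finset.mem_insert, not_or]; exact ⟨by omega, by omega, nN Z hZ 3⟩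
    rw [hf5, free_of_notMem t4, hf4, prin_of_notMem t3, hf3, prin_of_notMem (m2 Z hZ)]
  have g2 : ∀ Z ⊆ range N, f5 (insert (N + 2) (insert (N + 0) Z)) =
      min (f1 (insert (N + 0) Z) + μ) (f1 (insert (N + 0) (Z ∪ B))) := by
    intro Z hZ
    have t4 : N + 4 ∉ insert (N + 2) (insert (N + 0) Z) := by
      simp only [Finset.mem_insert, not_or]; exact ⟨by omega, by omega, nN Z hZ 4⟩
    have t3 : N + 3 ∉ insert (N + 2) (insert (N + 0) Z) := by
      simp only [Finset.mem_insert, not_or]; exact ⟨by omega, by omega, nN Z hZ 3⟩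
    have t2 : N + 2 ∉ insert (N + 0) Z := by
      simp only [Finset.mem_insert, not_or]; exact ⟨by omega, nN Z hZ 2⟩
    rw [hf5, free_of_notMem t4, hf4, prin_of_notMem t3, hf3, prin_insert t2,
      Finset.insert_union, hf2, prin_of_notMem (m1 Z hZ),
      prin_of_notMem (m1 (Z ∪ B) (Finset.union_subset hZ hBN))]
  -- the set `C`
  obtain ⟨C, hC⟩ : ∃ C : Finset ℕ, C =
    insert (N + 4) (insert (N + 3) (insert (N + 2) (insert (N + 1) (insert (N + 0) ∅)))) := ⟨_, rfl⟩
  have hCu : ∀ Z : Finset ℕ, Z ∪ C =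
      insert (N + 4) (insert (N + 3) (insert (N + 2) (insert (N + 1) (insert (N + 0) Z)))) := by
    intro Z; rw [hC]; ext i; simp only [Finset.mem_union, Finset.mem_insert, Finset.notMem_empty]
    tauto
  have vC : f5 C = c := by
    rw [hC, E5 _ zN, d1]; linarith
  have vAC : f5 (A ∪ C) = ac := by
    rw [hCu, E5 _ hAN, d2]; linarith
  have vBC : f5 (B ∪ C) = bc := by
    rw [hCu, E5 _ hBN, d3]; linarith
  have vABC : f5 (A ∪ B ∪ C) = abc := by
    rw [hCu, E5 _ hABN, d4]; linarith
  refine ⟨f5, C, p5, f5low, ?_, vC, vAC, vBC, vABC, ⟨insert (N + 1) (insert (N + 0) ∅), ?_, ?_, ?_, ?_⟩,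
    ⟨insert (N + 2) (insert (N + 0) ∅), ?_, ?_, ?_, ?_⟩⟩
  · rw [hC]; intro i; simp only [Finset.mem_insert, Finset.notMem_empty, Finset.mem_range, or_false]
    omega
  · intro i; simp only [Finset.mem_insert, Finset.notMem_empty, Finset.mem_range, or_false]
    omega
  · rw [g1 _ zN, b1, vC, vAC, f5low A hAN]; linarith
  · have e : A ∪ insert (N + 1) (insert (N + 0) ∅) = insert (N + 1) (insert (N + 0) A) := by
      ext i; simp only [Finset.mem_union, Finset.mem_insert, Finset.notMem_empty]; tauto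
    rw [e, g1 _ hAN, b2, f5low A hAN]
  · congr 1
    rw [hC]; ext i; simp only [Finset.mem_union, Finset.mem_insert, Finset.notMem_empty]; tauto
  · intro i; simp only [Finset.mem_insert, Finset.notMem_empty, Finset.mem_range, or_false]
    omega
  · rw [g2 _ zN, a1, Finset.empty_union, a3, vC, vBC, f5low B hBN, min_eq_left (by linarith)]
    linarith
  · have e : B ∪ insert (N + 2) (insert (N + 0) ∅) = insert (N + 2) (insert (N + 0) B) := by
      ext i; simp only [Finset.mem_union, Finset.mem_insert, Finset.notMem_empty]; tauto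
    rw [e, g2 _ hBN, s5, a3, f5low B hBN, min_eq_right (by linarith)]
  · congr 1
    rw [hC]; ext i; simp only [Finset.mem_union, Finset.mem_insert, Finset.notMem_empty]; tauto

end Pool.Agent.R556.PolyExt
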