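import Mathlib
import Pool.Agent.R556.PolyExt

/-!
# Extending partial polymatroids along a running intersection order

Helper file for `MP_e7d137_lc`.
-/

set_option autoImplicit false

namespace Pool.Agent.R556.PolyExt

open Finset

variable {n : ℕ}

/-- `g` satisfies the polymatroid axioms on the subsets of `F` -/
def PolyOn (g : Finset (Fin n) → ℝ) (F : Finset (Fin n)) : Prop :=
  g ∅ = 0 ∧ (∀ S T, S ⊆ T → T ⊆ F → g S ≤ g T) ∧
    ∀ S T, S ⊆ F → T ⊆ F → g (S ∪ T) + g (S ∩ T) ≤ g S + g T

/-- the elements below `N` -/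
def lo (N : ℕ) (Z : Finset ℕ) : Finset ℕ := Z.filter (· < N)

/-- the elements of `F` coded in `Z` above `N` -/
def hi (N : ℕ) (F : Finset (Fin n)) (Z : Finset ℕ) : Finset (Fin n) :=
  F.filter (fun i => N + i.val ∈ Z)

theorem lo_union (N : ℕ) (Z W : Finset ℕ) : lo N (Z ∪ W) = lo N Z ∪ lo N W :=
  Finset.filter_union _ _ _

theorem lo_inter (N : ℕ) (Z W : Finset ℕ) : lo N (Z ∩ W) = lo N Z ∩ lo N W := by
  ext i; simp only [lo, Finset.mem_filter, Finset.mem_inter]; tauto

theorem hi_union (N : ℕ) (F : Finset (Fin n)) (Z W : Finset ℕ) :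
    hi N F (Z ∪ W) = hi N F Z ∪ hi N F W := by
  ext i; simp only [hi, Finset.mem_filter, Finset.mem_union]; tauto

theorem hi_inter (N : ℕ) (F : Finset (Fin n)) (Z W : Finset ℕ) :
    hi N F (Z ∩ W) = hi N F Z ∩ hi N F W := by
  ext i; simp only [hi, Finset.mem_filter, Finset.mem_inter]; tauto

theorem lo_mono (N : ℕ) {Z W : Finset ℕ} (h : Z ⊆ W) : lo N Z ⊆ lo N W :=
  Finset.filter_subset_filter _ h

theorem hi_mono (N : ℕ) (F : Finset (Fin n)) {Z W : Finset ℕ} (h : Z ⊆ W) :
    hi N F Z ⊆ hi N F W := by
  intro i hi'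
  simp only [hi, Finset.mem_filter] at hi' ⊢
  exact ⟨hi'.1, h hi'.2⟩

theorem hi_subset (N : ℕ) (F : Finset (Fin n)) (Z : Finset ℕ) : hi N F Z ⊆ F :=
  Finset.filter_subset _ _

/-- the amalgam of `f` with `g` on `F`, identifying the closure of `A` with that of `B` -/
noncomputable def amal (f : Finset ℕ → ℝ) (N : ℕ) (A : Finset ℕ) (g : Finset (Fin n) → ℝ)
    (F B : Finset (Fin n)) (Z : Finset ℕ) : ℝ :=
  min (f (lo N Z) + g (hi N F Z)) (f (lo N Z ∪ A) + g (hi N F Z ∪ B) - g B)

theorem amal_poly {f : Finset ℕ → ℝ} (hf : IsPoly f) {N : ℕ} {A : Finset ℕ}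
    {g : Finset (Fin n) → ℝ} {F B : Finset (Fin n)} (hg : PolyOn g F) (hB : B ⊆ F)
    (hAB : f A = g B) : IsPoly (amal f N A g F B) := by
  obtain ⟨h0, hm, hs⟩ := hf
  obtain ⟨g0, gm, gs⟩ := hg
  have hle0 : ∀ Z, amal f N A g F B Z ≤ f (lo N Z) + g (hi N F Z) := fun Z => min_le_left _ _
  have hle1 : ∀ Z, amal f N A g F B Z ≤ f (lo N Z ∪ A) + g (hi N F Z ∪ B) - g B :=
    fun Z => min_le_right _ _
  have hc : ∀ Z, amal f N A g F B Z = f (lo N Z) + g (hi N F Z) ∨
      amal f N A g F B Z = f (lo N Z ∪ A) + g (hi N F Z ∪ B) - g B := fun Z => min_choice _ _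
  refine ⟨?_, ?_, ?_⟩
  · have e1 : lo N ∅ = ∅ := by simp [lo]
    have e2 : hi N F ∅ = ∅ := by simp [hi]
    unfold amal
    rw [e1, e2, h0, g0, Finset.empty_union, Finset.empty_union, hAB]
    have h1 := gm ∅ B (Finset.empty_subset _) hB
    rw [g0] at h1
    simp [h1]
  · intro Z W h
    have h1 := lo_mono N h
    have h2 := hi_mono N F h
    refine le_min ((hle0 Z).trans ?_) ((hle1 Z).trans ?_)
    · exact add_le_add (hm _ _ h1) (gm _ _ h2 (hi_subset _ _ _))
    · have h3 := hm _ _ (Finset.union_subset_union h1 (le_refl A))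
      have h4 := gm _ _ (Finset.union_subset_union h2 (le_refl B))
        (Finset.union_subset (hi_subset _ _ _) hB)
      linarith
  · have key : ∀ Z W, amal f N A g F B Z = f (lo N Z) + g (hi N F Z) →
        amal f N A g F B (Z ∪ W) + amal f N A g F B (Z ∩ W) ≤
          amal f N A g F B Z + amal f N A g F B W := by
      intro Z W hZ
      rw [hZ]
      rcases hc W with hW | hW
      · rw [hW]
        have h1 := hle0 (Z ∪ W)
        have h2 := hle0 (Z ∩ W)
        rw [lo_union, hi_union] at h1
        rw [lo_inter, hi_inter] at h2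
        have h3 := hs (lo N Z) (lo N W)
        have h4 := gs (hi N F Z) (hi N F W) (hi_subset _ _ _) (hi_subset _ _ _)
        linarith
      · rw [hW]
        have h1 := hle1 (Z ∪ W)
        have h2 := hle0 (Z ∩ W)
        rw [lo_union, hi_union] at h1
        rw [lo_inter, hi_inter] at h2
        have h3 := hs (lo N Z) (lo N W ∪ A)
        have h4 := gs (hi N F Z) (hi N F W ∪ B) (hi_subset _ _ _)
          (Finset.union_subset (hi_subset _ _ _) hB)
        rw [← Finset.union_assoc] at h3 h4
        have h5 : f (lo N Z ∩ lo N W) ≤ f (lo N Z ∩ (lo N W ∪ A)) :=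
          hm _ _ (Finset.inter_subset_inter le_rfl Finset.subset_union_left)
        have h6 : g (hi N F Z ∩ hi N F W) ≤ g (hi N F Z ∩ (hi N F W ∪ B)) :=
          gm _ _ (Finset.inter_subset_inter le_rfl Finset.subset_union_left)
            (Finset.inter_subset_left.trans (hi_subset _ _ _))
        linarith
    intro Z W
    rcases hc Z with hZ | hZ
    · exact key Z W hZ
    · rcases hc W with hW | hW
      · have := key W Z hW
        rw [Finset.union_comm, Finset.inter_comm]
        linarith
      · rw [hZ, hW]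
        have h1 := hle1 (Z ∪ W)
        have h2 := hle1 (Z ∩ W)
        rw [lo_union, hi_union] at h1
        rw [lo_inter, hi_inter] at h2
        have h3 := hs (lo N Z ∪ A) (lo N W ∪ A)
        have h4 := gs (hi N F Z ∪ B) (hi N F W ∪ B) (Finset.union_subset (hi_subset _ _ _) hB)
          (Finset.union_subset (hi_subset _ _ _) hB)
        have e1 : lo N Z ∪ A ∪ (lo N W ∪ A) = lo N Z ∪ lo N W ∪ A := by
          ext i; simp only [Finset.mem_union]; tauto
        have e2 : (lo N Z ∪ A) ∩ (lo N W ∪ A) = lo N Z ∩ lo N W ∪ A := by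
          ext i; simp only [Finset.mem_union, Finset.mem_inter]; tauto
        have e3 : hi N F Z ∪ B ∪ (hi N F W ∪ B) = hi N F Z ∪ hi N F W ∪ B := by
          ext i; simp only [Finset.mem_union]; tauto
        have e4 : (hi N F Z ∪ B) ∩ (hi N F W ∪ B) = hi N F Z ∩ hi N F W ∪ B := by
          ext i; simp only [Finset.mem_union, Finset.mem_inter]; tauto
        rw [e1, e2] at h3
        rw [e3, e4] at h4
        linarith

/-- the invariant of the construction -/
def Inv (g : Finset (Fin n) → ℝ) (NN PP : Set (Finset (Fin n))) : Prop :=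
  ∃ (N : ℕ) (f : Finset ℕ → ℝ) (v : Fin n → Finset ℕ), IsPoly f ∧ (∀ i, v i ⊆ range N) ∧
    (∀ S ∈ NN, f (S.biUnion v) = g S) ∧
    ∀ a b, a ≠ b → {a, b} ∈ PP → ∃ κ ⊆ range N, f κ = f (v a) + f (v b) - f (v a ∪ v b) ∧
      f (v a ∪ κ) = f (v a) ∧ f (v b ∪ κ) = f (v b)

theorem Inv.mono {g : Finset (Fin n) → ℝ} {NN PP NM PQ : Set (Finset (Fin n))} (h : Inv g NN PP)
    (h1 : NM ⊆ NN) (h2 : PQ ⊆ PP) : Inv g NM PQ := by
  obtain ⟨N, f, v, hf, hv, hN, hP⟩ := h
  exact ⟨N, f, v, hf, hv, fun S hS => hN S (h1 hS), fun a b hab h => hP a b hab (h2 h)⟩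

theorem biUnion_range {N : ℕ} {v : Fin n → Finset ℕ} (hv : ∀ i, v i ⊆ range N)
    (S : Finset (Fin n)) : S.biUnion v ⊆ range N :=
  Finset.biUnion_subset.2 fun i _ => hv i

theorem biUnion_union' {v : Fin n → Finset ℕ} (S T : Finset (Fin n)) :
    (S ∪ T).biUnion v = S.biUnion v ∪ T.biUnion v := by
  ext i; simp only [Finset.mem_biUnion, Finset.mem_union]
  constructor
  · rintro ⟨a, h1 | h1, h2⟩
    · exact Or.inl ⟨a, h1, h2⟩
    · exact Or.inr ⟨a, h1, h2⟩
  · rintro (⟨a, h1, h2⟩ | ⟨a, h1, h2⟩)
    · exact ⟨a, Or.inl h1, h2⟩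
    · exact ⟨a, Or.inr h1, h2⟩

/-- adding a facet which meets the previous ones in at most one element -/
theorem big_step {g : Finset (Fin n) → ℝ} {NN PP : Set (Finset (Fin n))} (h : Inv g NN PP)
    {F I : Finset (Fin n)} (hIF : I ⊆ F) (hI1 : I.card ≤ 1) (hIN : I ∈ NN) (hg : PolyOn g F)
    (hN : ∀ S ∈ NN, ∀ i ∈ S, i ∈ F → i ∈ I) (hP : ∀ S ∈ PP, ∀ i ∈ S, i ∈ F → i ∈ I) :
    Inv g (NN ∪ {S | S ⊆ F}) PP := by
  obtain ⟨N, f, v, hf, hv, hNv, hPv⟩ := h
  have hAB : f (I.biUnion v) = g I := hNv I hIN
  have hp := amal_poly (N := N) hf hg hIF hAB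
  obtain ⟨v', hv'⟩ : ∃ v' : Fin n → Finset ℕ, v' = fun i => if i ∈ F \ I then {N + i.val} else v i :=
    ⟨_, rfl⟩
  have hv1 : ∀ i, i ∉ F \ I → v' i = v i := by
    intro i hi; rw [hv']; simp only [if_neg hi]
  have hv2 : ∀ i, i ∈ F \ I → v' i = {N + i.val} := by
    intro i hi; rw [hv']; simp only [if_pos hi]
  have hlow : ∀ Z ⊆ range N, amal f N (I.biUnion v) g F I Z = f Z := by
    intro Z hZ
    have e1 : lo N Z = Z := by
      unfold lo
      refine Finset.filter_true_of_mem fun i hi => ?_
      exact Finset.mem_range.1 (hZ hi)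
    have e2 : hi N F Z = ∅ := by
      unfold hi
      refine Finset.filter_false_of_mem fun i _ h => ?_
      have := Finset.mem_range.1 (hZ h)
      omega
    unfold amal
    rw [e1, e2, hg.1, Finset.empty_union, add_sub_cancel_right, add_zero]
    exact min_eq_left (hf.2.1 _ _ Finset.subset_union_left)
  refine ⟨N + n, amal f N (I.biUnion v) g F I, v', hp, ?_, ?_, ?_⟩
  · intro i
    by_cases hi : i ∈ F \ I
    · rw [hv2 i hi]
      intro j hj
      rw [Finset.mem_singleton] at hj
      rw [Finset.mem_range, hj]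
      have := i.isLt
      omega
    · rw [hv1 i hi]
      refine (hv i).trans ?_
      intro j hj
      rw [Finset.mem_range] at hj ⊢
      omega
  · rintro S (hS | hS)
    · have e : S.biUnion v' = S.biUnion v := by
        refine Finset.biUnion_congr rfl fun i hi => hv1 i ?_
        intro h
        rw [Finset.mem_sdiff] at h
        exact h.2 (hN S hS i hi h.1)
      rw [e, hlow _ (biUnion_range hv S)]
      exact hNv S hS
    · have hSF : S ⊆ F := hS
      have e1 : lo N (S.biUnion v') = (S ∩ I).biUnion v := by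
        ext j
        simp only [lo, Finset.mem_filter, Finset.mem_biUnion, Finset.mem_inter]
        constructor
        · rintro ⟨⟨i, hi, hj⟩, hlt⟩
          by_cases h : i ∈ F \ I
          · rw [hv2 i h, Finset.mem_singleton] at hj
            omega
          · rw [hv1 i h] at hj
            refine ⟨i, ⟨hi, ?_⟩, hj⟩
            by_contra h2
            exact h (Finset.mem_sdiff.2 ⟨hSF hi, h2⟩)
        · rintro ⟨i, ⟨hi, hiI⟩, hj⟩
          have h : i ∉ F \ I := fun h => (Finset.mem_sdiff.1 h).2 hiI
          refine ⟨⟨i, hi, ?_⟩, Finset.mem_range.1 (hv i hj)⟩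
          rw [hv1 i h]; exact hj
      have e2 : hi N F (S.biUnion v') = S \ I := by
        ext j
        simp only [hi, Finset.mem_filter, Finset.mem_biUnion, Finset.mem_sdiff]
        constructor
        · rintro ⟨_, i, hi, hj⟩
          by_cases h : i ∈ F \ I
          · rw [hv2 i h, Finset.mem_singleton] at hj
            have : i = j := Fin.ext (by omega)
            subst this
            exact ⟨hi, (Finset.mem_sdiff.1 h).2⟩
          · rw [hv1 i h] at hj
            have := Finset.mem_range.1 (hv i hj)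
            omega
        · rintro ⟨hj, hjI⟩
          refine ⟨hSF hj, j, hj, ?_⟩
          rw [hv2 j (Finset.mem_sdiff.2 ⟨hSF hj, hjI⟩)]
          exact Finset.mem_singleton_self _
      unfold amal
      rw [e1, e2]
      have hcase : S ∩ I = ∅ ∨ S ∩ I = I := by
        rcases Finset.eq_empty_or_nonempty (S ∩ I) with h | h
        · exact Or.inl h
        · right
          refine Finset.eq_of_subset_of_card_le Finset.inter_subset_right ?_
          exact hI1.trans (Finset.card_pos.2 h)
      rcases hcase with h | h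
      · have e3 : S \ I = S := by
          refine Finset.sdiff_eq_self_of_disjoint ?_
          rw [Finset.disjoint_iff_inter_eq_empty]; exact h
        rw [h, e3, Finset.biUnion_empty, hf.1, Finset.empty_union, hAB]
        have h1 := hg.2.1 S (S ∪ I) Finset.subset_union_left (Finset.union_subset hSF hIF)
        rw [min_eq_left (by linarith), zero_add]
      · have hIS : I ⊆ S := by rw [← h]; exact Finset.inter_subset_left
        rw [h, Finset.union_self, hAB, Finset.sdiff_union_of_subset hIS]
        have h1 := hg.2.2 I (S \ I) hIF (Finset.sdiff_subset.trans hSF)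
        have e4 : I ∪ S \ I = S := Finset.union_sdiff_of_subset hIS
        have e5 : I ∩ (S \ I) = ∅ := by
          ext i; simp only [Finset.mem_inter, Finset.mem_sdiff, Finset.notMem_empty]; tauto
        rw [e4, e5, hg.1] at h1
        rw [min_eq_right (by linarith)]
        ring
  · intro a b hab hp'
    obtain ⟨κ, hκ, h1, h2, h3⟩ := hPv a b hab hp'
    have ha : a ∉ F \ I := by
      intro h
      rw [Finset.mem_sdiff] at h
      exact h.2 (hP _ hp' a (by simp) h.1)
    have hb : b ∉ F \ I := by
      intro h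
      rw [Finset.mem_sdiff] at h
      exact h.2 (hP _ hp' b (by simp) h.1)
    refine ⟨κ, ?_, ?_, ?_, ?_⟩
    · intro j hj
      have := Finset.mem_range.1 (hκ hj)
      rw [Finset.mem_range]; omega
    · rw [hv1 a ha, hv1 b hb, hlow κ hκ, hlow _ (hv a), hlow _ (hv b),
        hlow _ (Finset.union_subset (hv a) (hv b)), h1]
    · rw [hv1 a ha, hlow _ (Finset.union_subset (hv a) hκ), hlow _ (hv a), h2]
    · rw [hv1 b hb, hlow _ (Finset.union_subset (hv b) hκ), hlow _ (hv b), h3]

set_option maxHeartbeats 1000000 in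
/-- adding a vertex, joined to a set `P` with at most two elements -/
theorem vertex_step {g : Finset (Fin n) → ℝ} {NN PP : Set (Finset (Fin n))} (h : Inv g NN PP)
    {c : Fin n} {P : Finset (Fin n)} (hcN : ∀ S ∈ NN, c ∉ S) (hcP : ∀ S ∈ PP, c ∉ S)
    (hP : P.card ≤ 2) (hP2 : P.card = 2 → P ∈ PP) (hPN : ∀ S ⊆ P, S ∈ NN)
    (hg : PolyOn g (insert c P)) : Inv g (NN ∪ {S | S ⊆ insert c P}) (PP ∪ {S | S ⊆ insert c P}) := by
  obtain ⟨N, f, v, hf, hv, hNv, hPv⟩ := h
  obtain ⟨g0, gm, gs⟩ := hg
  have hcPn : c ∉ P := hcN P (hPN P (le_refl P))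
  -- splitting `P`
  obtain ⟨P1, P2, hPu, hsub, hκ, hmem1, hmem2⟩ : ∃ P1 P2 : Finset (Fin n), P = P1 ∪ P2 ∧
      (∀ S ⊆ P, S = ∅ ∨ S = P1 ∨ S = P2 ∨ S = P1 ∪ P2) ∧
      (∃ κ ⊆ range N, f κ = f (P1.biUnion v) + f (P2.biUnion v) -
          f (P1.biUnion v ∪ P2.biUnion v) ∧
        f (P1.biUnion v ∪ κ) = f (P1.biUnion v) ∧ f (P2.biUnion v ∪ κ) = f (P2.biUnion v)) ∧
      (∀ x ∈ P1, P1 = {x}) ∧ (∀ x ∈ P2, P2 = {x}) := by
    have hcard : P.card = 0 ∨ P.card = 1 ∨ P.card = 2 := by omega
    rcases hcard with h | h | h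
    · rw [Finset.card_eq_zero] at h
      subst h
      refine ⟨∅, ∅, by simp, ?_, ⟨∅, Finset.empty_subset _, by simp [hf.1], by simp, by simp⟩,
        by simp, by simp⟩
      intro S hS
      exact Or.inl (Finset.subset_empty.1 hS)
    · rw [Finset.card_eq_one] at h
      obtain ⟨a, rfl⟩ := h
      refine ⟨{a}, ∅, by simp, ?_, ⟨∅, Finset.empty_subset _, by simp [hf.1], by simp, by simp⟩,
        by simp, by simp⟩
      intro S hS
      rcases Finset.subset_singleton_iff.1 hS with h | h
      · exact Or.inl h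
      · exact Or.inr (Or.inl h)
    · have hPP := hP2 h
      rw [Finset.card_eq_two] at h
      obtain ⟨a, b, hab, rfl⟩ := h
      obtain ⟨κ, hκ, h1, h2, h3⟩ := hPv a b hab hPP
      refine ⟨{a}, {b}, rfl, ?_, ⟨κ, hκ, ?_, ?_, ?_⟩, by simp, by simp⟩
      · intro S hS
        by_cases ha : a ∈ S <;> by_cases hb : b ∈ S
        · right; right; right
          refine Finset.Subset.antisymm hS ?_
          intro i hi
          rcases Finset.mem_union.1 hi with hi | hi <;> rw [Finset.mem_singleton] at hi <;>
            rw [hi] <;> assumption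
        · right; left
          ext i
          constructor
          · intro hi
            have := hS hi
            simp only [Finset.mem_insert, Finset.mem_singleton] at this ⊢
            rcases this with h | h
            · exact h
            · exact absurd (h ▸ hi) hb
          · intro hi
            rw [Finset.mem_singleton] at hi
            rw [hi]; exact ha
        · right; right; left
          ext i
          constructor
          · intro hi
            have := hS hi
            simp only [Finset.mem_insert, Finset.mem_singleton] at this ⊢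
            rcases this with h | h
            · exact absurd (h ▸ hi) ha
            · exact h
          · intro hi
            rw [Finset.mem_singleton] at hi
            rw [hi]; exact hb
        · left
          rw [Finset.eq_empty_iff_forall_notMem]
          intro i hi
          have := hS hi
          simp only [Finset.mem_insert, Finset.mem_singleton] at this
          rcases this with h | h
          · exact ha (h ▸ hi)
          · exact hb (h ▸ hi)
      · simpa using h1
      · simpa using h2
      · simpa using h3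
  obtain ⟨κ, hκN, hκ1, hκ2, hκ3⟩ := hκ
  have hP1 : P1 ⊆ P := by rw [hPu]; exact Finset.subset_union_left
  have hP2' : P2 ⊆ P := by rw [hPu]; exact Finset.subset_union_right
  have hfA : f (P1.biUnion v) = g P1 := hNv _ (hPN _ hP1)
  have hfB : f (P2.biUnion v) = g P2 := hNv _ (hPN _ hP2')
  have hfAB : f (P1.biUnion v ∪ P2.biUnion v) = g P := by
    rw [← biUnion_union', ← hPu]; exact hNv _ (hPN _ le_rfl)
  have i1 : insert c P1 ⊆ insert c P := Finset.insert_subset_insert _ hP1
  have i2 : insert c P2 ⊆ insert c P := Finset.insert_subset_insert _ hP2'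
  have i0 : ({c} : Finset (Fin n)) ⊆ insert c P := by
    intro i hi; rw [Finset.mem_singleton] at hi; rw [hi]; exact Finset.mem_insert_self _ _
  have j0 : P ⊆ insert c P := Finset.subset_insert _ _
  have j1 : P1 ⊆ insert c P := hP1.trans j0
  have j2 : P2 ⊆ insert c P := hP2'.trans j0
  have hcP1 : c ∉ P1 := fun h => hcPn (hP1 h)
  have hcP2 : c ∉ P2 := fun h => hcPn (hP2' h)
  have q9 : g (insert c P1) ≤ g P1 + g {c} := by
    have h1 := gs P1 {c} j1 i0
    have e1 : P1 ∪ {c} = insert c P1 := by
      ext i; simp only [Finset.mem_union, Finset.mem_insert, Finset.mem_singleton]; tauto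
    have e2 : P1 ∩ {c} = ∅ := by
      ext i; simp only [Finset.mem_inter, Finset.mem_singleton, Finset.notMem_empty, iff_false]
      rintro ⟨hx, rfl⟩; exact hcP1 hx
    rw [e1, e2, g0] at h1
    linarith
  have q10 : g (insert c P2) ≤ g P2 + g {c} := by
    have h1 := gs P2 {c} j2 i0
    have e1 : P2 ∪ {c} = insert c P2 := by
      ext i; simp only [Finset.mem_union, Finset.mem_insert, Finset.mem_singleton]; tauto
    have e2 : P2 ∩ {c} = ∅ := by
      ext i; simp only [Finset.mem_inter, Finset.mem_singleton, Finset.notMem_empty, iff_false]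
      rintro ⟨hx, rfl⟩; exact hcP2 hx
    rw [e1, e2, g0] at h1
    linarith
  have q11 : g (insert c P) + g {c} ≤ g (insert c P1) + g (insert c P2) := by
    have h1 := gs (insert c P1) (insert c P2) i1 i2
    have e1 : insert c P1 ∪ insert c P2 = insert c P := by
      rw [hPu]; ext i; simp only [Finset.mem_union, Finset.mem_insert]; tauto
    have e2 := gm {c} (insert c P1 ∩ insert c P2) (by
      intro i hi; rw [Finset.mem_singleton] at hi; rw [hi]; simp)
      (Finset.inter_subset_left.trans i1)
    rw [e1] at h1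
    linarith
  have q12 : g (insert c P) + g P1 ≤ g P + g (insert c P1) := by
    have h1 := gs P (insert c P1) j0 i1
    have e1 : P ∪ insert c P1 = insert c P := by
      ext i; simp only [Finset.mem_union, Finset.mem_insert]
      constructor
      · rintro (h | h | h)
        · exact Or.inr h
        · exact Or.inl h
        · exact Or.inr (hP1 h)
      · rintro (h | h)
        · exact Or.inr (Or.inl h)
        · exact Or.inl h
    have e2 : P ∩ insert c P1 = P1 := by
      ext i; simp only [Finset.mem_inter, Finset.mem_insert]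
      constructor
      · rintro ⟨h1, h2 | h2⟩
        · exact absurd (h2 ▸ h1) hcPn
        · exact h2
      · intro h; exact ⟨hP1 h, Or.inr h⟩
    rw [e1, e2] at h1
    exact h1
  have q13 : g (insert c P) + g P2 ≤ g P + g (insert c P2) := by
    have h1 := gs P (insert c P2) j0 i2
    have e1 : P ∪ insert c P2 = insert c P := by
      ext i; simp only [Finset.mem_union, Finset.mem_insert]
      constructor
      · rintro (h | h | h)
        · exact Or.inr h
        · exact Or.inl h
        · exact Or.inr (hP2' h)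
      · rintro (h | h)
        · exact Or.inr (Or.inl h)
        · exact Or.inl h
    have e2 : P ∩ insert c P2 = P2 := by
      ext i; simp only [Finset.mem_inter, Finset.mem_insert]
      constructor
      · rintro ⟨h1, h2 | h2⟩
        · exact absurd (h2 ▸ h1) hcPn
        · exact h2
      · intro h; exact ⟨hP2' h, Or.inr h⟩
    rw [e1, e2] at h1
    exact h1
  have q1 : g {c} ≤ g (insert c P1) := gm _ _ (by simp) i1
  have q2 : g {c} ≤ g (insert c P2) := gm _ _ (by simp) i2
  have q3 : g P1 ≤ g (insert c P1) := gm _ _ (Finset.subset_insert _ _) i1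
  have q4 : g P2 ≤ g (insert c P2) := gm _ _ (Finset.subset_insert _ _) i2
  have q6 : g (insert c P1) ≤ g (insert c P) := gm _ _ i1 le_rfl
  have q7 : g (insert c P2) ≤ g (insert c P) := gm _ _ i2 le_rfl
  have q8 : g P ≤ g (insert c P) := gm _ _ j0 le_rfl
  obtain ⟨f', C, hf', hlow, hCN, vC, vAC, vBC, vABC, ⟨κ1, hκ1N, r1, r2, r3⟩,
    ⟨κ2, hκ2N, t1, t2, t3⟩⟩ := ext_pair hf (biUnion_range hv P1) (biUnion_range hv P2) hκN
      hκ1 hκ2 hκ3 q1 q2 (by rw [hfA]; exact q3) (by rw [hfB]; exact q4) q6 q7
      (by rw [hfAB]; exact q8) (by rw [hfA]; exact q9) (by rw [hfB]; exact q10) q11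
      (by rw [hfA, hfAB]; exact q12) (by rw [hfB, hfAB]; exact q13)
  obtain ⟨v', hv'⟩ : ∃ v' : Fin n → Finset ℕ, v' = Function.update v c C := ⟨_, rfl⟩
  have hv1 : ∀ i, i ≠ c → v' i = v i := by
    intro i hi; rw [hv', Function.update_of_ne hi]
  have hv2 : v' c = C := by rw [hv', Function.update_self]
  have hbU : ∀ S : Finset (Fin n), c ∉ S → S.biUnion v' = S.biUnion v := by
    intro S hS
    refine Finset.biUnion_congr rfl fun i hi => hv1 i ?_
    rintro rfl; exact hS hi
  have hmono : range N ⊆ range (N + 5) := by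
    intro i hi; rw [Finset.mem_range] at hi ⊢; omega
  refine ⟨N + 5, f', v', hf', ?_, ?_, ?_⟩
  · intro i
    by_cases hi : i = c
    · rw [hi, hv2]; exact hCN
    · rw [hv1 i hi]; exact (hv i).trans hmono
  · rintro S (hS | hS)
    · rw [hbU S (hcN S hS), hlow _ (biUnion_range hv S)]
      exact hNv S hS
    · by_cases hcS : c ∈ S
      · have hS' : S.erase c ⊆ P := by
          intro i hi
          rw [Finset.mem_erase] at hi
          rcases Finset.mem_insert.1 (hS hi.2) with h | h
          · exact absurd h hi.1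
          · exact h
        have hins : S = insert c (S.erase c) := (Finset.insert_erase hcS).symm
        have hval : f' (S.biUnion v') = f' ((S.erase c).biUnion v ∪ C) := by
          congr 1
          conv_lhs => rw [hins]
          rw [Finset.biUnion_insert, hv2, hbU _ (Finset.notMem_erase _ _), Finset.union_comm]
        rw [hval, hins]
        generalize S.erase c = T at hS'
        have hcT : c ∉ T := fun h => hcPn (hS' h)
        rw [Finset.erase_insert hcT]
        rcases hsub T hS' with h | h | h | h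
        · rw [h, Finset.biUnion_empty, Finset.empty_union, vC]; rfl
        · rw [h, vAC]
        · rw [h, vBC]
        · rw [h, biUnion_union', vABC, hPu]
      · have hS' : S ⊆ P := by
          intro i hi
          rcases Finset.mem_insert.1 (hS hi) with h | h
          · exact absurd (h ▸ hi) hcS
          · exact h
        rw [hbU S hcS, hlow _ (biUnion_range hv S)]
        exact hNv S (hPN S hS')
  · -- common informations
    have hold : ∀ a b, a ≠ b → {a, b} ∈ PP → ∃ κ ⊆ range (N + 5),
        f' κ = f' (v' a) + f' (v' b) - f' (v' a ∪ v' b) ∧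
        f' (v' a ∪ κ) = f' (v' a) ∧ f' (v' b ∪ κ) = f' (v' b) := by
      intro a b hab hp'
      obtain ⟨κ, hκ, h1, h2, h3⟩ := hPv a b hab hp'
      have hca := hcP _ hp'
      have ha : a ≠ c := by rintro rfl; exact hca (by simp)
      have hb : b ≠ c := by rintro rfl; exact hca (by simp)
      refine ⟨κ, hκ.trans hmono, ?_, ?_, ?_⟩
      · rw [hv1 a ha, hv1 b hb, hlow κ hκ, hlow _ (hv a), hlow _ (hv b),
          hlow _ (Finset.union_subset (hv a) (hv b)), h1]
      · rw [hv1 a ha, hlow _ (Finset.union_subset (hv a) hκ), hlow _ (hv a), h2]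
      · rw [hv1 b hb, hlow _ (Finset.union_subset (hv b) hκ), hlow _ (hv b), h3]
    have hnew : ∀ a, a ∈ P → ∃ κ ⊆ range (N + 5),
        f' κ = f' (v' a) + f' (v' c) - f' (v' a ∪ v' c) ∧
        f' (v' a ∪ κ) = f' (v' a) ∧ f' (v' c ∪ κ) = f' (v' c) := by
      intro a ha
      have hac : a ≠ c := by rintro rfl; exact hcPn ha
      rw [hv1 a hac, hv2]
      rw [hPu, Finset.mem_union] at ha
      rcases ha with ha | ha
      · have e := hmem1 a ha
        rw [e, Finset.singleton_biUnion] at r1 r2
        exact ⟨κ1, hκ1N, r1, r2, r3⟩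
      · have e := hmem2 a ha
        rw [e, Finset.singleton_biUnion] at t1 t2
        exact ⟨κ2, hκ2N, t1, t2, t3⟩
    rintro a b hab (hp' | hp')
    · exact hold a b hab hp'
    · have ha : a ∈ insert c P := hp' (by simp)
      have hb : b ∈ insert c P := hp' (by simp)
      rw [Finset.mem_insert] at ha hb
      rcases ha with ha | ha
      · rcases hb with hb | hb
        · exact absurd (ha.trans hb.symm) hab
        · obtain ⟨κ, hκ, h1, h2, h3⟩ := hnew b hb
          rw [ha]
          refine ⟨κ, hκ, ?_, h3, h2⟩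
          rw [h1, Finset.union_comm]; ring
      · rcases hb with hb | hb
        · rw [hb]; exact hnew a ha
        · have hPab : P = {a, b} := by
            symm
            refine Finset.eq_of_subset_of_card_le ?_ ?_
            · intro i hi
              simp only [Finset.mem_insert, Finset.mem_singleton] at hi
              rcases hi with rfl | rfl <;> assumption
            · rw [Finset.card_pair hab]; exact hP
          exact hold a b hab (hPab ▸ hP2 (by rw [hPab, Finset.card_pair hab]))

/-- adding a facet with at most three elements -/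
theorem small_step {g : Finset (Fin n) → ℝ} {NN PP : Set (Finset (Fin n))} (h : Inv g NN PP)
    {F I : Finset (Fin n)} (hIF : I ⊆ F) (hF : F.card ≤ 3) (hI2 : I.card ≤ 2)
    (hI : I.card = 2 → I ∈ PP)
    (hIN : ∀ S ⊆ I, S ∈ NN) (hg : PolyOn g F)
    (hN : ∀ S ∈ NN, ∀ i ∈ S, i ∈ F → i ∈ I) (hP : ∀ S ∈ PP, ∀ i ∈ S, i ∈ F → i ∈ I) :
    Inv g (NN ∪ {S | S ⊆ F}) (PP ∪ {S | S ⊆ F}) := by
  have key : ∀ m : ℕ, ∀ P : Finset (Fin n), I ⊆ P → P ⊆ F → (P \ I).card = m →
      Inv g (NN ∪ {S | S ⊆ P}) (PP ∪ {S | S ⊆ P}) := by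
    intro m
    induction m with
    | zero =>
      intro P h1 _ h3
      have h4 : P = I := by
        apply le_antisymm _ h1
        rw [Finset.card_eq_zero, Finset.sdiff_eq_empty_iff_subset] at h3
        exact h3
      rw [h4]
      obtain ⟨N, f, v, hf, hv, hNv, hPv⟩ := h
      refine ⟨N, f, v, hf, hv, ?_, ?_⟩
      · rintro S (hS | hS)
        · exact hNv S hS
        · exact hNv S (hIN S hS)
      · rintro a b hab (hp' | hp')
        · exact hPv a b hab hp'
        · refine hPv a b hab ?_
          have e : I = {a, b} := by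
            symm
            refine Finset.eq_of_subset_of_card_le hp' ?_
            rw [Finset.card_pair hab]; exact hI2
          exact e ▸ hI (by rw [e, Finset.card_pair hab])
    | succ m ih =>
      intro P h1 h2 h3
      obtain ⟨c, hc⟩ : (P \ I).Nonempty := by
        rw [← Finset.card_pos]; omega
      rw [Finset.mem_sdiff] at hc
      have e1 : insert c (P.erase c) = P := Finset.insert_erase hc.1
      have h4 : I ⊆ P.erase c := Finset.subset_erase.2 ⟨h1, hc.2⟩
      have h5 : P.erase c ⊆ F := (Finset.erase_subset _ _).trans h2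
      have h6 : (P.erase c \ I).card = m := by
        have : P.erase c \ I = (P \ I).erase c := by
          ext i; simp only [Finset.mem_sdiff, Finset.mem_erase]; tauto
        rw [this, Finset.card_erase_of_mem (Finset.mem_sdiff.2 hc)]
        omega
      have h7 := ih (P.erase c) h4 h5 h6
      have h8 := vertex_step (c := c) (P := P.erase c) h7 ?_ ?_ ?_ ?_ ?_ ?_
      · refine h8.mono ?_ ?_
        · rintro S (hS | hS)
          · exact Or.inl (Or.inl hS)
          · refine Or.inr ?_
            rw [e1]; exact hS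
        · rintro S (hS | hS)
          · exact Or.inl (Or.inl hS)
          · refine Or.inr ?_
            rw [e1]; exact hS
      · rintro S (hS | hS) hcS
        · exact hc.2 (hN S hS c hcS (h2 hc.1))
        · exact Finset.notMem_erase c P (hS hcS)
      · rintro S (hS | hS) hcS
        · exact hc.2 (hP S hS c hcS (h2 hc.1))
        · exact Finset.notMem_erase c P (hS hcS)
      · have := Finset.card_le_card h2
        rw [Finset.card_erase_of_mem hc.1]
        omega
      · intro _
        exact Or.inr (le_refl (P.erase c))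
      · intro S hS
        exact Or.inr hS
      · rw [e1]
        exact ⟨hg.1, fun S T h h' => hg.2.1 S T h (h'.trans h2),
          fun S T h h' => hg.2.2 S T (h.trans h2) (h'.trans h2)⟩
  exact key _ F hIF le_rfl rfl

/-- **Sufficiency.** -/
theorem extends_of_order {M : Set (Finset (Fin n))} {g : Finset (Fin n) → ℝ}
    (hMg : ∀ F ∈ M, PolyOn g F)
    {k : ℕ} {F : ℕ → Finset (Fin n)} (hF : ∀ j < k, F j ∈ M) (hcov : ∀ S ∈ M, ∃ j < k, S ⊆ F j)
    (hk : 0 < k)
    (hne : ∀ i < k, ∀ j < k, i ≠ j → ¬ F i ⊆ F j)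
    (hbig : ∀ i < k, ∀ j < k, i ≠ j → 4 ≤ (F i).card → (F i ∩ F j).card ≤ 1)
    (hrip : ∀ j < k, 0 < j → ∃ i < j, F j ∩ (range j).biUnion F ⊆ F i) :
    ∃ f : Finset (Fin n) → ℝ, (f ∅ = 0 ∧ (∀ S, 0 ≤ f S) ∧ (∀ S T, S ⊆ T → f S ≤ f T) ∧
      ∀ S T, f (S ∪ T) + f (S ∩ T) ≤ f S + f T) ∧ ∀ S ∈ M, f S = g S := by
  have g0 : g ∅ = 0 := (hMg _ (hF 0 hk)).1
  have key : ∀ j ≤ k, Inv g {S | S = ∅ ∨ ∃ i < j, S ⊆ F i}
      {S | ∃ i < j, S ⊆ F i ∧ (F i).card ≤ 3} := by
    intro j
    induction j with
    | zero =>
      intro _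
      refine ⟨0, fun _ => 0, fun _ => ∅, ⟨rfl, fun _ _ _ => le_rfl, fun _ _ => by simp⟩,
        fun _ => by simp, ?_, ?_⟩
      · rintro S (hS | ⟨i, hi, _⟩)
        · rw [hS, g0]
        · omega
      · rintro a b _ ⟨i, hi, _⟩
        omega
    | succ j ih =>
      intro hj
      have hInv := ih (by omega)
      obtain ⟨I, hI⟩ : ∃ I, I = F j ∩ (range j).biUnion F := ⟨_, rfl⟩
      have hIF : I ⊆ F j := by rw [hI]; exact Finset.inter_subset_left
      have hmem : ∀ i < j, ∀ x ∈ F i, x ∈ F j → x ∈ I := by
        intro i hi x hx hx'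
        rw [hI, Finset.mem_inter, Finset.mem_biUnion]
        exact ⟨hx', i, Finset.mem_range.2 hi, hx⟩
      have hN : ∀ S ∈ {S | S = ∅ ∨ ∃ i < j, S ⊆ F i}, ∀ x ∈ S, x ∈ F j → x ∈ I := by
        rintro S (hS | ⟨i, hi, hS⟩) x hx hx'
        · rw [hS] at hx; simp at hx
        · exact hmem i hi x (hS hx) hx'
      have hP : ∀ S ∈ {S | ∃ i < j, S ⊆ F i ∧ (F i).card ≤ 3}, ∀ x ∈ S, x ∈ F j → x ∈ I := by
        rintro S ⟨i, hi, hS, _⟩ x hx hx'
        exact hmem i hi x (hS hx) hx'
      -- the separator
      have hsep : I = ∅ ∨ ∃ i < j, I ⊆ F i := by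
        rcases Nat.eq_zero_or_pos j with h0 | h0
        · left; rw [hI, h0]; simp
        · right
          obtain ⟨i, hi, h⟩ := hrip j (by omega) h0
          exact ⟨i, hi, hI ▸ h⟩
      have hIN : ∀ S ⊆ I, S ∈ {S | S = ∅ ∨ ∃ i < j, S ⊆ F i} := by
        intro S hS
        rcases hsep with h | ⟨i, hi, h⟩
        · left; rw [h] at hS; exact Finset.subset_empty.1 hS
        · right; exact ⟨i, hi, hS.trans h⟩
      rcases Nat.lt_or_ge 3 (F j).card with hc | hc
      · -- big facet
        have hI1 : I.card ≤ 1 := by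
          rcases hsep with h | ⟨i, hi, h⟩
          · rw [h]; simp
          · have h1 := hbig j (by omega) i (by omega) (by omega) hc
            exact (Finset.card_le_card (Finset.subset_inter hIF h)).trans h1
        have := big_step hInv hIF hI1 (hIN I le_rfl) (hMg _ (hF j (by omega))) hN hP
        refine this.mono ?_ ?_
        · rintro S (hS | ⟨i, hi, hS⟩)
          · exact Or.inl (Or.inl hS)
          · rcases Nat.lt_succ_iff_lt_or_eq.1 hi with h | h
            · exact Or.inl (Or.inr ⟨i, h, hS⟩)
            · exact Or.inr (h ▸ hS)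
        · rintro S ⟨i, hi, hS, hc'⟩
          rcases Nat.lt_succ_iff_lt_or_eq.1 hi with h | h
          · exact ⟨i, h, hS, hc'⟩
          · rw [h] at hc'; omega
      · -- small facet
        have hI2 : I.card ≤ 2 := by
          by_contra h3
          push Not at h3
          have : I = F j := Finset.eq_of_subset_of_card_le hIF (by omega)
          rcases hsep with h | ⟨i, hi, h⟩
          · rw [h] at h3; simp at h3
          · exact hne j (by omega) i (by omega) (by omega) (this ▸ h)
        have hIP : I.card = 2 → I ∈ {S | ∃ i < j, S ⊆ F i ∧ (F i).card ≤ 3} := by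
          intro h2
          rcases hsep with h | ⟨i, hi, h⟩
          · rw [h] at h2; simp at h2
          · refine ⟨i, hi, h, ?_⟩
            by_contra h3
            push Not at h3
            have h4 := hbig i (by omega) j (by omega) (by omega) (by omega)
            have h5 := Finset.card_le_card (Finset.subset_inter h hIF)
            omega
        have := small_step hInv hIF hc hI2 hIP hIN (hMg _ (hF j (by omega))) hN hP
        refine this.mono ?_ ?_
        · rintro S (hS | ⟨i, hi, hS⟩)
          · exact Or.inl (Or.inl hS)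
          · rcases Nat.lt_succ_iff_lt_or_eq.1 hi with h | h
            · exact Or.inl (Or.inr ⟨i, h, hS⟩)
            · exact Or.inr (h ▸ hS)
        · rintro S ⟨i, hi, hS, hc'⟩
          rcases Nat.lt_succ_iff_lt_or_eq.1 hi with h | h
          · exact Or.inl ⟨i, h, hS, hc'⟩
          · exact Or.inr (h ▸ hS)
  obtain ⟨N, f, v, hf, hv, hNv, _⟩ := key k le_rfl
  refine ⟨fun S => f (S.biUnion v), ⟨?_, ?_, ?_, ?_⟩, ?_⟩
  · simp [hf.1]
  · intro S
    rw [← hf.1]; exact hf.2.1 _ _ (Finset.empty_subset _)
  · intro S T h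
    exact hf.2.1 _ _ (Finset.biUnion_subset_biUnion_of_subset_left _ h)
  · intro S T
    have h1 := hf.2.2 (S.biUnion v) (T.biUnion v)
    have h2 : f ((S ∩ T).biUnion v) ≤ f (S.biUnion v ∩ T.biUnion v) :=
      hf.2.1 _ _ (Finset.subset_inter
        (Finset.biUnion_subset_biUnion_of_subset_left _ Finset.inter_subset_left)
        (Finset.biUnion_subset_biUnion_of_subset_left _ Finset.inter_subset_right))
    simp only [biUnion_union']
    linarith
  · intro S hS
    obtain ⟨j, hj, h⟩ := hcov S hS
    exact hNv S (Or.inr ⟨j, hj, h⟩)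

end Pool.Agent.R556.PolyExt
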