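import Mathlib

/-!
# Sum index and difference index of the tree of depth two with all inner degrees `n`
-/

set_option autoImplicit false

namespace Pool.Agent.R556.SumDiff

open Finset

/-- The sum index of a graph. -/
noncomputable def sumIndex {V : Type} (G : SimpleGraph V) : ℕ :=
  sInf {k | ∃ f : V → ℤ, Function.Injective f ∧
    {z : ℤ | ∃ u v, G.Adj u v ∧ z = f u + f v}.ncard = k}

/-- The difference index of a graph. -/
noncomputable def diffIndex {V : Type} (G : SimpleGraph V) : ℕ :=
  sInf {k | ∃ f : V → ℤ, Function.Injective f ∧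
    {z : ℤ | ∃ u v, G.Adj u v ∧ z = |f u - f v|}.ncard = k}

/-- Vertices of the tree: the root, `n` children, and `n - 1` grandchildren for each child. -/
abbrev TV (n : ℕ) : Type := Unit ⊕ Fin n ⊕ {p : Fin n × Fin n // p.1 ≠ p.2}

/-- The (directed) edges: parent to child. -/
def par (n : ℕ) : TV n → TV n → Prop
  | Sum.inl _, Sum.inr (Sum.inl _) => True
  | Sum.inr (Sum.inl i), Sum.inr (Sum.inr p) => p.1.1 = i
  | _, _ => False

/-- The tree. -/
def T (n : ℕ) : SimpleGraph (TV n) where
  Adj x y := par n x y ∨ par n y x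
  symm := ⟨fun _ _ h => h.symm⟩
  loopless := ⟨fun x h => by
    rcases x with x | x | x <;> simp [par] at h⟩

theorem adj_root (n : ℕ) (i : Fin n) : (T n).Adj (Sum.inl ()) (Sum.inr (Sum.inl i)) :=
  Or.inl trivial

theorem adj_child (n : ℕ) (p : {p : Fin n × Fin n // p.1 ≠ p.2}) :
    (T n).Adj (Sum.inr (Sum.inl p.1.1)) (Sum.inr (Sum.inr p)) :=
  Or.inl rfl

/-- The tree is bipartite. -/
theorem colorable (n : ℕ) : (T n).Colorable 2 := by
  refine ⟨SimpleGraph.Coloring.mk (fun x => match x with
    | Sum.inl _ => (0 : Fin 2)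
    | Sum.inr (Sum.inl _) => 1
    | Sum.inr (Sum.inr _) => 0) ?_⟩
  rintro (x | x | x) (y | y | y) h <;> simp [T, par] at h ⊢

/-! ### ternary representation -/

theorem tern (n : ℕ) (d : Fin n → ℤ) (hd : ∀ i, |d i| ≤ 2)
    (h : ∑ i, d i * 3 ^ (i : ℕ) = 0) : ∀ i, d i = 0 := by
  induction n with
  | zero => intro i; exact i.elim0
  | succ n ih =>
    rw [Fin.sum_univ_succ] at h
    simp only [Fin.val_zero, pow_zero, mul_one, Fin.val_succ, pow_succ] at h
    have h1 : ∑ i : Fin n, d i.succ * (3 ^ (i : ℕ) * 3) =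
        3 * ∑ i : Fin n, d i.succ * 3 ^ (i : ℕ) := by
      rw [Finset.mul_sum]
      refine Finset.sum_congr rfl fun i _ => by ring
    rw [h1] at h
    have h0 := hd 0
    rw [abs_le] at h0
    have h2 : d 0 = 0 := by omega
    have h3 : ∑ i : Fin n, d i.succ * 3 ^ (i : ℕ) = 0 := by omega
    intro i
    refine Fin.cases h2 (fun j => ?_) i
    exact ih (fun j => d j.succ) (fun j => hd j.succ) h3 j

/-- vector valued labels -/
def vec (n : ℕ) : TV n → Fin n → ℤ
  | Sum.inl _, _ => 0
  | Sum.inr (Sum.inl i), k => if k = i then 1 else 0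
  | Sum.inr (Sum.inr p), k => (if k = p.1.2 then 1 else 0) - (if k = p.1.1 then 1 else 0)

theorem vec_abs (n : ℕ) (x : TV n) (k : Fin n) : |vec n x k| ≤ 1 := by
  rcases x with x | x | x
  · simp [vec]
  · simp only [vec]; split_ifs <;> simp
  · simp only [vec]; split_ifs <;> simp

theorem vec_inj (n : ℕ) : Function.Injective (vec n) := by
  intro x y h
  have hk : ∀ k, vec n x k = vec n y k := fun k => congrFun h k
  rcases x with x | x | x <;> rcases y with y | y | y
  · rfl
  · have := hk y; simp [vec] at this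
  · have := hk y.1.2
    have hy := y.2
    simp [vec, Ne.symm hy] at this
  · have := hk x; simp [vec] at this
  · have := hk x
    simp only [vec, if_true] at this
    by_cases hxy : x = y
    · rw [hxy]
    · rw [if_neg hxy] at this; omega
  · have h1 := hk y.1.1
    have hy := y.2
    simp only [vec, if_true, if_neg hy] at h1
    split_ifs at h1 <;> omega
  · have := hk x.1.2
    have hy := x.2
    simp [vec, Ne.symm hy] at this
  · have h1 := hk x.1.1
    have hy := x.2
    simp only [vec, if_true, if_neg hy] at h1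
    split_ifs at h1 <;> omega
  · obtain ⟨⟨a, b⟩, hab⟩ := x
    obtain ⟨⟨c, d⟩, hcd⟩ := y
    simp only [ne_eq] at hab hcd
    have h1 := hk b
    have h2 := hk a
    simp only [vec, if_true] at h1 h2
    have hbd : b = d := by
      by_contra hne
      rw [if_neg hne, if_neg (Ne.symm hab)] at h1
      split_ifs at h1 <;> omega
    have hac : a = c := by
      by_contra hne
      rw [if_neg hne, if_neg hab] at h2
      split_ifs at h2 <;> omega
    subst hbd hac
    rfl

/-- integer labels -/
def lab (n : ℕ) (x : TV n) : ℤ := ∑ k, vec n x k * 3 ^ (k : ℕ)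

theorem lab_inj (n : ℕ) : Function.Injective (lab n) := by
  intro x y h
  apply vec_inj
  funext k
  have h1 : ∑ k, (vec n x k - vec n y k) * 3 ^ (k : ℕ) = 0 := by
    simp only [sub_mul, Finset.sum_sub_distrib]
    exact sub_eq_zero.2 h
  have h2 := tern n (fun k => vec n x k - vec n y k) (fun i => by
    have a := vec_abs n x i
    have b := vec_abs n y i
    rw [abs_le] at a b ⊢
    constructor <;> linarith) h1 k
  linarith

theorem lab_root (n : ℕ) : lab n (Sum.inl ()) = 0 := by simp [lab, vec]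

theorem lab_child (n : ℕ) (i : Fin n) : lab n (Sum.inr (Sum.inl i)) = 3 ^ (i : ℕ) := by
  simp [lab, vec]

theorem lab_grand (n : ℕ) (p : {p : Fin n × Fin n // p.1 ≠ p.2}) :
    lab n (Sum.inr (Sum.inr p)) = 3 ^ (p.1.2 : ℕ) - 3 ^ (p.1.1 : ℕ) := by
  simp [lab, vec, sub_mul, Finset.sum_sub_distrib]

theorem sums_subset (n : ℕ) : {z : ℤ | ∃ u v, (T n).Adj u v ∧ z = lab n u + lab n v} ⊆
    (((univ : Finset (Fin n)).image fun i : Fin n => (3 : ℤ) ^ (i : ℕ) : Finset ℤ) : Set ℤ) := by
  have key : ∀ u v, par n u v → ∃ i : Fin n, (3 : ℤ) ^ (i : ℕ) = lab n u + lab n v := by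
    rintro (x | x | x) (y | y | y) h <;> simp only [par] at h
    · exact ⟨y, by rw [lab_root, lab_child]; ring⟩
    · exact ⟨y.1.2, by rw [lab_grand, lab_child, h]; ring⟩
  rintro z ⟨u, v, h | h, rfl⟩
  · obtain ⟨i, hi⟩ := key u v h
    simp only [coe_image, coe_univ, Set.image_univ, Set.mem_range]
    exact ⟨i, hi⟩
  · obtain ⟨i, hi⟩ := key v u h
    simp only [coe_image, coe_univ, Set.image_univ, Set.mem_range]
    exact ⟨i, by rw [hi]; ring⟩

theorem fin_adj {V : Type} [Finite V] (G : SimpleGraph V) (g : V → V → ℤ) :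
    {z : ℤ | ∃ u v, G.Adj u v ∧ z = g u v}.Finite := by
  apply (Set.finite_range fun p : V × V => g p.1 p.2).subset
  rintro z ⟨u, v, -, rfl⟩
  exact ⟨(u, v), rfl⟩

/-- The sum index of the tree is `n`. -/
theorem sumIndex_T (n : ℕ) : sumIndex (T n) = n := by
  apply le_antisymm
  · refine le_trans (Nat.sInf_le ⟨lab n, lab_inj n, rfl⟩) ?_
    refine le_trans (Set.ncard_le_ncard (sums_subset n) (Finset.finite_toSet _)) ?_
    rw [Set.ncard_coe_finset]
    refine le_trans Finset.card_image_le ?_
    simp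
  · refine le_csInf ⟨_, lab n, lab_inj n, rfl⟩ ?_
    rintro k ⟨f, hf, rfl⟩
    have h1 : (((univ : Finset (Fin n)).image fun i : Fin n => f (Sum.inl ()) + f (Sum.inr (Sum.inl i)) : Finset ℤ)
        : Set ℤ) ⊆ {z : ℤ | ∃ u v, (T n).Adj u v ∧ z = f u + f v} := by
      intro z hz
      simp only [coe_image, coe_univ, Set.image_univ, Set.mem_range] at hz
      obtain ⟨i, rfl⟩ := hz
      exact ⟨_, _, adj_root n i, rfl⟩
    have h2 := Set.ncard_le_ncard h1 (fin_adj _ _)
    rw [Set.ncard_coe_finset, Finset.card_image_of_injective] at h2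
    · simpa using h2
    · intro i j h
      have := hf (add_left_cancel h)
      simpa using this

/-- The difference index `m` of the tree satisfies `n (n - 1) ≤ m (2 m + 1)`. -/
theorem diffIndex_T (n : ℕ) :
    n * (n - 1) ≤ diffIndex (T n) * (2 * diffIndex (T n) + 1) := by
  classical
  obtain ⟨f, hf, hm⟩ := Nat.sInf_mem (s := {k | ∃ f : TV n → ℤ, Function.Injective f ∧
    {z : ℤ | ∃ u v, (T n).Adj u v ∧ z = |f u - f v|}.ncard = k}) ⟨_, lab n, lab_inj n, rfl⟩
  change _ = diffIndex (T n) at hm
  set D := {z : ℤ | ∃ u v, (T n).Adj u v ∧ z = |f u - f v|} with hD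
  have hfin : D.Finite := fin_adj _ _
  set F := hfin.toFinset with hF
  have hFcard : F.card = diffIndex (T n) := by
    rw [← hm, Set.ncard_eq_toFinset_card _ hfin]
  set E := F ∪ F.image (fun z => -z) with hE
  have hEcard : E.card ≤ 2 * diffIndex (T n) := by
    refine le_trans (Finset.card_union_le _ _) ?_
    have := Finset.card_image_le (s := F) (f := fun z : ℤ => -z)
    omega
  have hmem : ∀ u v, (T n).Adj u v → f u - f v ∈ E := by
    intro u v h
    rw [hE, mem_union, mem_image]
    rcases abs_choice (f u - f v) with h1 | h1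
    · left
      rw [hF, Set.Finite.mem_toFinset]
      exact ⟨u, v, h, h1.symm⟩
    · right
      refine ⟨|f u - f v|, ?_, by rw [h1]; ring⟩
      rw [hF, Set.Finite.mem_toFinset]
      exact ⟨u, v, h, rfl⟩
  have hinj : Function.Injective fun p : {p : Fin n × Fin n // p.1 ≠ p.2} =>
      f (Sum.inr (Sum.inr p)) - f (Sum.inl ()) := by
    intro p q h
    have := hf (sub_left_injective h)
    simpa using this
  set A : Finset ℤ := univ.image fun p : {p : Fin n × Fin n // p.1 ≠ p.2} =>
      f (Sum.inr (Sum.inr p)) - f (Sum.inl ()) with hA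
  have hAcard : A.card = n * (n - 1) := by
    rw [hA, Finset.card_image_of_injective _ hinj, Finset.card_univ, Fintype.card_subtype_compl,
      Fintype.card_prod, Fintype.card_fin]
    have : Fintype.card {x : Fin n × Fin n // x.1 = x.2} = n := by
      rw [Fintype.card_congr (β := Fin n) ⟨fun x => x.1.1, fun i => ⟨(i, i), rfl⟩, fun x => by
        obtain ⟨⟨a, b⟩, h⟩ := x
        simp only at h
        subst h
        rfl, fun i => rfl⟩, Fintype.card_fin]
    rw [this, Nat.mul_sub_one]
  have hsub : A ⊆ E.sym2.image (Sym2.lift ⟨fun a b => a + b, fun a b => add_comm a b⟩) := by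
    intro z hz
    rw [hA, mem_image] at hz
    obtain ⟨p, -, rfl⟩ := hz
    rw [mem_image]
    refine ⟨s(f (Sum.inr (Sum.inr p)) - f (Sum.inr (Sum.inl p.1.1)),
      f (Sum.inr (Sum.inl p.1.1)) - f (Sum.inl ())), ?_, ?_⟩
    · rw [Finset.mk_mem_sym2_iff]
      exact ⟨hmem _ _ (adj_child n p).symm, hmem _ _ (adj_root n p.1.1).symm⟩
    · simp
  have h1 := Finset.card_le_card hsub
  have h2 := h1.trans Finset.card_image_le
  rw [Finset.card_sym2, hAcard, Nat.choose_two_right] at h2
  have h3 : (E.card + 1) * (E.card + 1 - 1) / 2 ≤ diffIndex (T n) * (2 * diffIndex (T n) + 1) := by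
    have h4 : (E.card + 1) * (E.card + 1 - 1) ≤
        (2 * diffIndex (T n) + 1) * (2 * diffIndex (T n)) :=
      Nat.mul_le_mul (by omega) (by omega)
    have h5 : (2 * diffIndex (T n) + 1) * (2 * diffIndex (T n)) =
        2 * (diffIndex (T n) * (2 * diffIndex (T n) + 1)) := by ring
    omega
  exact h2.trans h3

end Pool.Agent.R556.SumDiff
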